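import Mathlib

/-!
# Bushy sets of strings

Strings are lists in reversed order: `a :: ν` is the extension of `ν` by one symbol `a`, and
`ν <:+ ρ` says that `ρ` extends `ν`.
-/

namespace Pool.Agent.Lib.MP_85df58_lc

open Set

variable {α : Type*}

/-- `Big c S ν`: there is a finite tree above `ν` with all leaves in `S` in which every inner node
`μ` has at least `c |μ|` children. -/
inductive Big (c : ℕ → ℕ) (S : Set (List α)) : List α → Prop
  | base {ν : List α} (h : ν ∈ S) : Big c S ν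
  | step {ν : List α} (C : Finset α) (hC : c ν.length ≤ C.card)
      (h : ∀ a ∈ C, Big c S (a :: ν)) : Big c S ν

theorem Big.mono {c d : ℕ → ℕ} {S S' : Set (List α)} {ν : List α} (h : Big c S ν)
    (hcd : ∀ j, ν.length ≤ j → d j ≤ c j) (hS : ∀ ρ ∈ S, ν <:+ ρ → ρ ∈ S') : Big d S' ν := by
  induction h with
  | base h => exact .base (hS _ h (List.suffix_refl _))
  | @step ν C hC h ih =>
    refine .step C ((hcd _ le_rfl).trans hC) fun a ha => ?_
    refine ih a ha (fun j hj => hcd j ?_) fun ρ hρ h' => hS ρ hρ ?_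
    · simp only [List.length_cons] at hj
      omega
    · exact (List.suffix_cons a ν).trans h'

theorem Big.trans {c : ℕ → ℕ} {S S' : Set (List α)} {ν : List α} (h : Big c S ν)
    (h' : ∀ ρ ∈ S, ν <:+ ρ → Big c S' ρ) : Big c S' ν := by
  induction h with
  | base h => exact h' _ h (List.suffix_refl _)
  | @step ν C hC h ih =>
    refine .step C hC fun a ha => ih a ha fun ρ hρ hρ' => h' ρ hρ ?_
    exact (List.suffix_cons a ν).trans hρ'

theorem Big.union {c c₁ c₂ : ℕ → ℕ} {S₁ S₂ : Set (List α)} {ν : List α}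
    (h : Big c (S₁ ∪ S₂) ν) (hc : ∀ j, ν.length ≤ j → c₁ j + c₂ j ≤ c j) :
    Big c₁ S₁ ν ∨ Big c₂ S₂ ν := by
  classical
  induction h with
  | base h =>
    rcases h with h | h
    · exact .inl (.base h)
    · exact .inr (.base h)
  | @step ν C hC h ih =>
    have hC' := (hc _ le_rfl).trans hC
    have ih' : ∀ a ∈ C, Big c₁ S₁ (a :: ν) ∨ Big c₂ S₂ (a :: ν) := fun a ha =>
      ih a ha fun j hj => hc j (by simp only [List.length_cons] at hj; omega)
    let C₁ := C.filter fun a => Big c₁ S₁ (a :: ν)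
    let C₂ := C.filter fun a => ¬ Big c₁ S₁ (a :: ν)
    have hcard : C₁.card + C₂.card = C.card := Finset.card_filter_add_card_filter_not _
    by_cases h1 : c₁ ν.length ≤ C₁.card
    · exact .inl (.step C₁ h1 fun a ha => (Finset.mem_filter.1 ha).2)
    · refine .inr (.step C₂ (by omega) fun a ha => ?_)
      obtain ⟨ha, ha'⟩ := Finset.mem_filter.1 ha
      exact (ih' a ha).resolve_left ha'

/-- Compactness: an increasing union which is big has a big member. -/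
theorem Big.iUnion {c : ℕ → ℕ} {S : ℕ → Set (List α)} (hS : Monotone S) {ν : List α}
    (h : Big c (⋃ n, S n) ν) : ∃ n, Big c (S n) ν := by
  induction h with
  | base h =>
    obtain ⟨n, hn⟩ := mem_iUnion.1 h
    exact ⟨n, .base hn⟩
  | @step ν C hC h ih =>
    choose! f hf using ih
    refine ⟨C.sup f, .step C hC fun a ha => ?_⟩
    refine (hf a ha).mono (fun _ _ => le_rfl) fun ρ hρ _ => ?_
    exact hS (Finset.le_sup (f := f) ha) hρ

/-- A big set contains a finite tree. -/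
theorem Big.certificate {c : ℕ → ℕ} {S T : Set (List α)} {σ ν : List α} (h : Big c S ν)
    (hc : ∀ j, ν.length ≤ j → 1 ≤ c j) (hST : S ⊆ T)
    (hT : ∀ a μ, a :: μ ∈ T → σ <:+ μ → μ ∈ T) (hσ : σ <:+ ν) :
    ∃ W : Finset (List α), ν ∈ W ∧ (∀ μ ∈ W, ν <:+ μ) ∧ (∀ μ ∈ W, μ = ν ∨ (μ ≠ [] ∧ μ.tail ∈ W)) ∧
      (∀ μ ∈ W, μ ∈ T) ∧
      (∀ μ ∈ W, μ ∈ S ∨ ∃ C : Finset α, c μ.length ≤ C.card ∧ ∀ a ∈ C, a :: μ ∈ W) ∧
      ∀ μ ∈ W, ∃ ρ ∈ S, μ <:+ ρ := by
  classical
  induction h with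
  | @base ν h =>
    refine ⟨{ν}, by simp, by simp, by simp, ?_, ?_, ?_⟩
    · simpa using hST h
    · simpa using .inl h
    · simpa using ⟨ν, h, List.suffix_refl _⟩
  | @step ν C hC h ih =>
    have ih' : ∀ a ∈ C, ∃ W : Finset (List α), a :: ν ∈ W ∧ (∀ μ ∈ W, a :: ν <:+ μ) ∧
        (∀ μ ∈ W, μ = a :: ν ∨ (μ ≠ [] ∧ μ.tail ∈ W)) ∧ (∀ μ ∈ W, μ ∈ T) ∧
        (∀ μ ∈ W, μ ∈ S ∨ ∃ C : Finset α, c μ.length ≤ C.card ∧ ∀ a ∈ C, a :: μ ∈ W) ∧
        ∀ μ ∈ W, ∃ ρ ∈ S, μ <:+ ρ := by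
      intro a ha
      refine ih a ha (fun j hj => hc j ?_) (hσ.trans (List.suffix_cons a ν))
      simp only [List.length_cons] at hj
      omega
    choose! W hW1 hW2 hW3 hW4 hW5 hW6 using ih'
    have hne : 0 < C.card := lt_of_lt_of_le (hc _ le_rfl) hC
    obtain ⟨a₀, ha₀⟩ := Finset.card_pos.1 hne
    refine ⟨insert ν (C.biUnion W), by simp, ?_, ?_, ?_, ?_, ?_⟩
    · intro μ hμ
      rcases Finset.mem_insert.1 hμ with rfl | hμ
      · exact List.suffix_refl _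
      · obtain ⟨a, ha, hμ⟩ := Finset.mem_biUnion.1 hμ
        exact (List.suffix_cons a ν).trans (hW2 a ha μ hμ)
    · intro μ hμ
      rcases Finset.mem_insert.1 hμ with rfl | hμ
      · exact .inl rfl
      · obtain ⟨a, ha, hμ⟩ := Finset.mem_biUnion.1 hμ
        right
        rcases hW3 a ha μ hμ with rfl | ⟨h1, h2⟩
        · exact ⟨by simp, by simp⟩
        · exact ⟨h1, Finset.mem_insert_of_mem (Finset.mem_biUnion.2 ⟨a, ha, h2⟩)⟩
    · intro μ hμ
      rcases Finset.mem_insert.1 hμ with rfl | hμ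
      · exact hT a₀ _ (hW4 a₀ ha₀ _ (hW1 a₀ ha₀)) hσ
      · obtain ⟨a, ha, hμ⟩ := Finset.mem_biUnion.1 hμ
        exact hW4 a ha μ hμ
    · intro μ hμ
      rcases Finset.mem_insert.1 hμ with rfl | hμ
      · refine .inr ⟨C, hC, fun a ha => ?_⟩
        exact Finset.mem_insert_of_mem (Finset.mem_biUnion.2 ⟨a, ha, hW1 a ha⟩)
      · obtain ⟨a, ha, hμ⟩ := Finset.mem_biUnion.1 hμ
        refine (hW5 a ha μ hμ).imp id ?_
        rintro ⟨D, hD, hD'⟩
        exact ⟨D, hD, fun b hb => Finset.mem_insert_of_mem (Finset.mem_biUnion.2 ⟨a, ha, hD' b hb⟩)⟩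
    · intro μ hμ
      rcases Finset.mem_insert.1 hμ with rfl | hμ
      · obtain ⟨ρ, hρ, hs⟩ := hW6 a₀ ha₀ _ (hW1 a₀ ha₀)
        exact ⟨ρ, hρ, (List.suffix_cons _ _).trans hs⟩
      · obtain ⟨a, ha, hμ⟩ := Finset.mem_biUnion.1 hμ
        exact hW6 a ha μ hμ

end Pool.Agent.Lib.MP_85df58_lc
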