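import Mathlib

/-!
# Computably enumerable predicates in a convenient normal form

A predicate is `CE` if it is of the form `∃ s, R a s` with `R` primitive recursive.
-/

namespace Pool.Agent.Lib.MP_85df58_lc

open Encodable Primrec

variable {α β γ σ : Type*} [Primcodable α] [Primcodable β] [Primcodable γ] [Primcodable σ]

/-- Computably enumerable predicates. -/
def CE (p : α → Prop) : Prop :=
  ∃ R : α → ℕ → Prop, PrimrecRel R ∧ ∀ a, p a ↔ ∃ s, R a s

theorem CE.of_eq {p q : α → Prop} (hp : CE p) (h : ∀ a, p a ↔ q a) : CE q := by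
  obtain ⟨R, hR, hp⟩ := hp
  exact ⟨R, hR, fun a => (h a).symm.trans (hp a)⟩

theorem CE.mono {p : α → Prop} (hp : CE p) :
    ∃ R : α → ℕ → Prop, PrimrecRel R ∧ (∀ a s t, s ≤ t → R a s → R a t) ∧
      ∀ a, p a ↔ ∃ s, R a s := by
  obtain ⟨R, hR, hp⟩ := hp
  refine ⟨fun a s => ∃ t ∈ List.range (s + 1), R a t, ?_, ?_, ?_⟩
  · have h1 : PrimrecRel fun (t : ℕ) (a : α) => R a t := hR.swap
    have h2 := PrimrecRel.exists_mem_list h1
    exact h2.comp (list_range.comp (succ.comp snd)) fst
  · intro a s t hst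
    rintro ⟨u, hu, h⟩
    refine ⟨u, ?_, h⟩
    simp only [List.mem_range] at hu ⊢
    omega
  · intro a
    rw [hp]
    constructor
    · rintro ⟨s, hs⟩
      exact ⟨s, s, by simp, hs⟩
    · rintro ⟨s, t, -, hs⟩
      exact ⟨t, hs⟩

theorem CE.of_primrec {p : α → Prop} (hp : PrimrecPred p) : CE p :=
  ⟨fun a _ => p a, hp.comp fst, fun _ => ⟨fun h => ⟨0, h⟩, fun ⟨_, h⟩ => h⟩⟩

theorem CE.comp {p : β → Prop} (hp : CE p) {f : α → β} (hf : Primrec f) :
    CE fun a => p (f a) := by
  obtain ⟨R, hR, hp⟩ := hp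
  exact ⟨fun a s => R (f a) s, hR.comp (hf.comp fst) snd, fun a => hp (f a)⟩

theorem CE.and {p q : α → Prop} (hp : CE p) (hq : CE q) : CE fun a => p a ∧ q a := by
  obtain ⟨R, hR, hRm, hp⟩ := hp.mono
  obtain ⟨S, hS, hSm, hq⟩ := hq.mono
  refine ⟨fun a s => R a s ∧ S a s, PrimrecPred.and hR hS, fun a => ?_⟩
  beta_reduce
  rw [hp, hq]
  constructor
  · rintro ⟨⟨s, hs⟩, t, ht⟩
    exact ⟨max s t, hRm _ _ _ (le_max_left _ _) hs, hSm _ _ _ (le_max_right _ _) ht⟩
  · rintro ⟨s, hs, ht⟩
    exact ⟨⟨s, hs⟩, s, ht⟩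

theorem CE.or {p q : α → Prop} (hp : CE p) (hq : CE q) : CE fun a => p a ∨ q a := by
  obtain ⟨R, hR, hp⟩ := hp
  obtain ⟨S, hS, hq⟩ := hq
  refine ⟨fun a s => R a s ∨ S a s, PrimrecPred.or hR hS, fun a => ?_⟩
  beta_reduce
  rw [hp, hq, exists_or]

theorem CE.exists {p : α × β → Prop} (hp : CE p) : CE fun a => ∃ b, p (a, b) := by
  classical
  obtain ⟨R, hR, hp⟩ := hp
  refine ⟨fun a n => ∃ b ∈ (decode (α := β) n.unpair.1).toList, R (a, b) n.unpair.2, ?_, ?_⟩
  · have h1 : PrimrecRel fun (b : β) (x : α × ℕ) => R (x.1, b) x.2.unpair.2 :=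
      hR.comp (Primrec.pair (fst.comp snd) fst)
        (snd.comp (Primrec.unpair.comp (snd.comp snd)))
    have h2 := PrimrecRel.exists_mem_list h1
    exact h2.comp (optionToList.comp (Primrec.decode.comp (fst.comp (Primrec.unpair.comp snd))))
      Primrec.id
  · intro a
    constructor
    · rintro ⟨b, hb⟩
      obtain ⟨s, hs⟩ := (hp _).1 hb
      refine ⟨Nat.pair (encode b) s, b, ?_, ?_⟩
      · simp
      · simpa using hs
    · rintro ⟨n, b, -, hs⟩
      exact ⟨b, (hp _).2 ⟨_, hs⟩⟩

theorem CE.forall_mem {p : α × β → Prop} (hp : CE p) {l : α → List β} (hl : Primrec l) :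
    CE fun a => ∀ b ∈ l a, p (a, b) := by
  obtain ⟨R, hR, hRm, hp⟩ := hp.mono
  refine ⟨fun a s => ∀ b ∈ l a, R (a, b) s, ?_, ?_⟩
  · have h1 : PrimrecRel fun (b : β) (x : α × ℕ) => R (x.1, b) x.2 :=
      hR.comp (Primrec.pair (fst.comp snd) fst) (snd.comp snd)
    exact (PrimrecRel.forall_mem_list h1).comp (hl.comp fst) Primrec.id
  · intro a
    constructor
    · intro h
      have h' : ∀ m : List β, (∀ b ∈ m, p (a, b)) → ∃ s, ∀ b ∈ m, R (a, b) s := by
        intro m
        induction m with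
        | nil => intro _; exact ⟨0, by simp⟩
        | cons c m ih =>
          intro hm
          obtain ⟨s, hs⟩ := ih fun b hb => hm b (List.mem_cons_of_mem _ hb)
          obtain ⟨t, ht⟩ := (hp _).1 (hm c List.mem_cons_self)
          refine ⟨max s t, ?_⟩
          intro b hb
          rcases List.mem_cons.1 hb with rfl | hb
          · exact hRm _ _ _ (le_max_right _ _) ht
          · exact hRm _ _ _ (le_max_left _ _) (hs b hb)
      exact h' _ h
    · rintro ⟨s, hs⟩ b hb
      exact (hp _).2 ⟨s, hs b hb⟩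

/-- The graph of a partial computable function. -/
theorem CE.graph {f : α →. σ} (hf : Partrec f) : CE fun x : α × σ => x.2 ∈ f x.1 := by
  classical
  obtain ⟨c, hc⟩ := Nat.Partrec.Code.exists_code.1 hf
  refine ⟨fun x s => Nat.Partrec.Code.evaln s c (encode x.1) = some (encode x.2), ?_, ?_⟩
  · refine Primrec.eq.comp ?_ (option_some.comp (Primrec.encode.comp (snd.comp fst)))
    exact Nat.Partrec.Code.primrec_evaln.comp
      (Primrec.pair (Primrec.pair snd (Primrec.const c)) (Primrec.encode.comp (fst.comp fst)))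
  · rintro ⟨a, v⟩
    have h1 : encode v ∈ c.eval (encode a) ↔ v ∈ f a := by
      rw [hc]
      simp [encode_inj]
    refine h1.symm.trans ?_
    rw [Nat.Partrec.Code.evaln_complete]
    rfl

theorem CE.graph_computable {f : α → σ} (hf : Computable f) :
    CE fun x : α × σ => x.2 = f x.1 :=
  (CE.graph hf.partrec).of_eq fun x => by simp

theorem CE.dom {f : α →. σ} (hf : Partrec f) : CE fun x : α => (f x).Dom :=
  (CE.exists (CE.graph hf)).of_eq fun x => by simp [Part.dom_iff_mem]

theorem CE.of_computable {p : α → Prop} [DecidablePred p] (hp : Computable fun a => decide (p a)) :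
    CE p := by
  have h := CE.graph_computable hp
  refine (h.comp (Primrec.pair Primrec.id (Primrec.const true))).of_eq fun a => ?_
  simp

/-- Composition with a computable function. -/
theorem CE.comp_computable {p : β → Prop} (hp : CE p) {f : α → β} (hf : Computable f) :
    CE fun a => p (f a) := by
  have h1 : CE fun x : α × β => x.2 = f x.1 ∧ p x.2 :=
    (CE.graph_computable hf).and (hp.comp snd)
  exact h1.exists.of_eq fun a => by simp

/-- Selection principle for computably enumerable relations. -/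
theorem CE.select {p : α × β → Prop} (hp : CE p) :
    ∃ f : α →. β, Partrec f ∧ (∀ a, ∀ b ∈ f a, p (a, b)) ∧ ∀ a, (∃ b, p (a, b)) → (f a).Dom := by
  classical
  obtain ⟨R, hR, hp⟩ := hp
  let g : α → ℕ → Option β := fun a n =>
    (decode (α := β) n.unpair.1).bind fun b => if R (a, b) n.unpair.2 then some b else none
  have hg : Primrec₂ g := by
    refine Primrec.option_bind ?_ ?_
    · exact Primrec.decode.comp (fst.comp (Primrec.unpair.comp snd))
    · refine Primrec.ite ?_ (option_some.comp snd) (Primrec.const none)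
      exact hR.comp (Primrec.pair (fst.comp fst) snd)
        (snd.comp (Primrec.unpair.comp (snd.comp fst)))
  refine ⟨fun a => Nat.rfindOpt (g a), Partrec.rfindOpt hg.to_comp, ?_, ?_⟩
  · intro a b hb
    obtain ⟨n, hn⟩ := Nat.rfindOpt_spec hb
    simp only [g, Option.mem_def, Option.bind_eq_some_iff] at hn
    obtain ⟨c, -, hc⟩ := hn
    split_ifs at hc with h
    obtain rfl := Option.some.inj hc
    exact (hp _).2 ⟨_, h⟩
  · rintro a ⟨b, hb⟩
    obtain ⟨s, hs⟩ := (hp _).1 hb
    rw [Nat.rfindOpt_dom]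
    refine ⟨Nat.pair (encode b) s, b, ?_⟩
    simp [g, hs]

/-- A total function with computably enumerable graph is computable. -/
theorem computable_of_graph {f : α → β} {p : α × β → Prop} (hp : CE p)
    (h : ∀ a b, p (a, b) ↔ b = f a) : Computable f := by
  obtain ⟨g, hg, h1, h2⟩ := hp.select
  refine hg.of_eq_tot fun a => ?_
  have hd := h2 a ⟨f a, (h _ _).2 rfl⟩
  have := h1 a _ (Part.get_mem hd)
  rw [h] at this
  rw [← this]
  exact Part.get_mem hd

end Pool.Agent.Lib.MP_85df58_lc
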