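import Pool.Agent.Lib.MP_85df58_lc.Big
import Pool.Agent.Lib.MP_85df58_lc.CE

/-!
# Bigness is computably enumerable
-/

namespace Pool.Agent.Lib.MP_85df58_lc

open Encodable Primrec

section

variable {α β γ : Type*} [Primcodable α] [Primcodable β] [Primcodable γ]

theorem primrec_mem : PrimrecRel fun (b : β) (l : List β) => b ∈ l := by
  have h1 : PrimrecRel fun (L : List β) (b : β) => ∃ a ∈ L, a = b :=
    PrimrecRel.exists_mem_list Primrec.eq
  exact (h1.comp snd fst).of_eq (by simp)

theorem primrec_nodup : PrimrecPred fun l : List β => l.Nodup := by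
  classical
  have h1 : Primrec₂ fun (L : List β) (b : β) => L.filter fun a => decide (a = b) := by
    have := PrimrecRel.listFilter (α := β) (β := β) (R := fun a b => a = b) Primrec.eq
    exact this
  have h2 : PrimrecRel fun (b : β) (L : List β) => (L.filter fun a => decide (a = b)).length ≤ 1 :=
    Primrec.nat_le.comp (list_length.comp (h1.comp snd fst)) (Primrec.const 1)
  have h3 := (PrimrecRel.forall_mem_list h2).comp (Primrec.id (α := List β)) Primrec.id
  refine h3.of_eq fun l => ?_
  simp only [id]
  rw [List.nodup_iff_count_le_one]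
  constructor
  · intro h a
    by_cases ha : a ∈ l
    · have := h a ha
      rw [List.count_eq_length_filter]
      refine le_trans (le_of_eq ?_) this
      congr 1
    · rw [List.count_eq_zero_of_not_mem ha]
      omega
  · intro h a _
    have := h a
    rw [List.count_eq_length_filter] at this
    refine le_trans (le_of_eq ?_) this
    congr 1

/-- `μ` has at least `c |μ|` children in `W`. -/
def Kids (c : ℕ → ℕ) (W : List (List α)) (μ : List α) : Prop :=
  ∃ C : List α, C.Nodup ∧ c μ.length ≤ C.length ∧ ∀ a ∈ C, a :: μ ∈ W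

/-- Enumerability of `Kids`, uniformly in a parameter. -/
theorem ce_kids {c : γ → ℕ → ℕ} (hc : Computable₂ c) {W : γ → List (List α)} (hW : Primrec W)
    {μ : γ → List α} (hμ : Primrec μ) : CE fun x => Kids (c x) (W x) (μ x) := by
  have h1 : CE fun y : γ × List α => y.2.Nodup := CE.of_primrec (primrec_nodup.comp snd)
  have h2 : CE fun y : γ × List α => c y.1 (μ y.1).length ≤ y.2.length := by
    have h3 : CE fun z : (γ × List α) × ℕ => z.2 = c z.1.1 (μ z.1.1).length :=
      CE.graph_computable (f := fun y : γ × List α => c y.1 (μ y.1).length)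
        (hc.comp Computable.fst ((list_length.comp (hμ.comp fst)).to_comp))
    have h4 : CE fun z : (γ × List α) × ℕ => z.2 ≤ z.1.2.length :=
      CE.of_primrec (Primrec.nat_le.comp snd (list_length.comp (snd.comp fst)))
    exact (h3.and h4).exists.of_eq fun y => by simp
  have h5 : CE fun y : γ × List α => ∀ a ∈ y.2, a :: μ y.1 ∈ W y.1 := by
    refine CE.forall_mem (p := fun z : (γ × List α) × α => z.2 :: μ z.1.1 ∈ W z.1.1) ?_ snd
    refine CE.of_primrec (primrec_mem.comp ?_ (hW.comp (fst.comp fst)))
    exact list_cons.comp snd (hμ.comp (fst.comp fst))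
  exact (h1.and (h2.and h5)).exists

omit [Primcodable α] in
theorem big_iff_exists_list [DecidableEq α] {c : ℕ → ℕ} {S : Set (List α)} {τ : List α} :
    Big c S τ ↔ ∃ W : List (List α), τ ∈ W ∧ ∀ μ ∈ W, μ ∈ S ∨ Kids c W μ := by
  constructor
  · intro h
    induction h with
    | @base ν h => exact ⟨[ν], by simp, by simpa using .inl h⟩
    | @step ν C hC h ih =>
      choose! W hW1 hW2 using ih
      refine ⟨ν :: C.toList.flatMap W, by simp, ?_⟩
      have hsub : ∀ a ∈ C, ∀ μ ∈ W a, μ ∈ ν :: C.toList.flatMap W := by
        intro a ha μ hμ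
        exact List.mem_cons_of_mem _ (List.mem_flatMap.2 ⟨a, by simpa using ha, hμ⟩)
      intro μ hμ
      rcases List.mem_cons.1 hμ with rfl | hμ
      · refine .inr ⟨C.toList, C.nodup_toList, by simpa using hC, fun a ha => ?_⟩
        have ha' : a ∈ C := by simpa using ha
        exact hsub a ha' _ (hW1 a ha')
      · obtain ⟨a, ha, hμ⟩ := List.mem_flatMap.1 hμ
        have ha' : a ∈ C := by simpa using ha
        refine (hW2 a ha' μ hμ).imp id ?_
        rintro ⟨D, hD1, hD2, hD3⟩
        exact ⟨D, hD1, hD2, fun b hb => hsub a ha' _ (hD3 b hb)⟩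
  · rintro ⟨W, hτ, hW⟩
    -- all lengths in `W` are bounded
    obtain ⟨L, hL⟩ : ∃ L, ∀ μ ∈ W, μ.length ≤ L := by
      refine ⟨(W.map List.length).sum, fun μ hμ => ?_⟩
      exact List.single_le_sum (by simp) _ (List.mem_map_of_mem hμ)
    have key : ∀ n, ∀ μ ∈ W, L - μ.length = n → Big c S μ := by
      intro n
      induction n using Nat.strong_induction_on with
      | _ n ih =>
        intro μ hμ hn
        rcases hW μ hμ with h | ⟨C, hC1, hC2, hC3⟩
        · exact .base h
        · refine .step C.toFinset ?_ fun a ha => ?_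
          · rw [List.toFinset_card_of_nodup hC1]
            exact hC2
          · have h1 := hC3 a (by simpa using ha)
            have h2 := hL _ h1
            simp only [List.length_cons] at h2
            exact ih (L - (a :: μ).length) (by simp only [List.length_cons]; omega) _ h1 rfl
    exact key _ τ hτ rfl

/-- Bigness of an enumerable family is enumerable. -/
theorem ce_big [DecidableEq α] {c : ℕ → ℕ} (hc : Computable c) {S : γ → Set (List α)}
    (hS : CE fun x : γ × List α => x.2 ∈ S x.1) (τ : List α) : CE fun x => Big c (S x) τ := by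
  have h1 : CE fun y : γ × List (List α) => τ ∈ y.2 :=
    CE.of_primrec (primrec_mem.comp (Primrec.const τ) snd)
  have h2 : CE fun y : γ × List (List α) => ∀ μ ∈ y.2, μ ∈ S y.1 ∨ Kids c y.2 μ := by
    refine CE.forall_mem
      (p := fun z : (γ × List (List α)) × List α => z.2 ∈ S z.1.1 ∨ Kids c z.1.2 z.2) ?_ snd
    refine CE.or (hS.comp (Primrec.pair (fst.comp fst) snd)) ?_
    exact ce_kids (c := fun _ => c) (hc.comp Computable.snd) (snd.comp fst) snd
  exact (h1.and h2).exists.of_eq fun x =>
    ⟨fun h => big_iff_exists_list.2 h, fun h => big_iff_exists_list.1 h⟩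

end

end Pool.Agent.Lib.MP_85df58_lc
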