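import Pool.Agent.Lib.MP_85df58_lc.Functional

/-!
# A sufficient condition for Turing reducibility
-/

namespace Pool.Agent.Lib.MP_85df58_lc

open Encodable Primrec

/-- Appending a bit to an encoded list. -/
def appendCode (x : ℕ) : ℕ :=
  encode (((decode (α := List Bool) x.unpair.1).getD []) ++ [decide (x.unpair.2 = 1)])

theorem appendCode_primrec : Primrec appendCode := by
  refine Primrec.encode.comp (list_append.comp ?_ ?_)
  · exact option_getD.comp (Primrec.decode.comp (fst.comp Primrec.unpair)) (Primrec.const [])
  · refine list_cons.comp ?_ (Primrec.const [])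
    exact Primrec.eq.decide.comp (snd.comp Primrec.unpair) (Primrec.const 1)

theorem appendCode_pre (f : ℕ → Bool) (n : ℕ) :
    appendCode (Nat.pair (encode (pre f n)) (f n).toNat) = encode (pre f (n + 1)) := by
  unfold appendCode
  rw [Nat.unpair_pair]
  simp only [encodek, Option.getD_some]
  congr 1
  simp only [pre, List.range_succ, List.map_append, List.map_cons, List.map_nil]
  cases f n <;> simp

theorem recursiveIn_pre (f : ℕ → Bool) :
    Nat.RecursiveIn {chi f} fun n => Part.some (encode (pre f n)) := by
  have hy : Nat.RecursiveIn {chi f} fun p => Part.some p.unpair.2.unpair.1 :=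
    (Primrec.nat_iff.1 (fst.comp (Primrec.unpair.comp (snd.comp Primrec.unpair)))).recursiveIn
  have hi : Nat.RecursiveIn {chi f} fun p => Part.some p.unpair.2.unpair.2 :=
    (Primrec.nat_iff.1 (snd.comp (Primrec.unpair.comp (snd.comp Primrec.unpair)))).recursiveIn
  have ho : Nat.RecursiveIn {chi f} (chi f) := .oracle _ rfl
  have hc : Nat.RecursiveIn {chi f} fun x => Part.some (appendCode x) :=
    (Primrec.nat_iff.1 appendCode_primrec).recursiveIn
  have h0 : Nat.RecursiveIn {chi f} fun _ => Part.some (encode ([] : List Bool)) :=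
    (Primrec.nat_iff.1 (Primrec.const _)).recursiveIn
  have h1 := Nat.RecursiveIn.prec h0 (.comp hc (.pair hi (.comp ho hy)))
  have h2 : Nat.RecursiveIn {chi f} fun n => Part.some (Nat.pair 0 n) :=
    (Primrec.nat_iff.1 (Primrec₂.natPair.comp (Primrec.const 0) Primrec.id)).recursiveIn
  refine (Nat.RecursiveIn.comp h1 h2).of_eq fun n => ?_
  change (Part.some (Nat.pair 0 n)).bind _ = _
  rw [Part.bind_some]
  simp only [Nat.unpair_pair]
  induction n with
  | zero => rfl
  | succ n ih =>
    simp only
    rw [ih]
    simp only [Part.bind_eq_bind, Part.bind_some, Seq.seq, Part.map_eq_map, Part.map_some, chi]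
    rw [← appendCode_pre]

theorem reduce {A f : ℕ → Bool} {G : ℕ → List Bool → Bool} (hG : Computable₂ G) {h : ℕ → ℕ}
    (hh : Computable h) (hA : ∀ i, A i = G i (pre f (h i))) :
    TuringReducible (chi A) (chi f) := by
  refine RecursiveIn.iff_nat.2 ?_
  let K : ℕ → ℕ := fun p => (G p.unpair.1 ((decode (α := List Bool) p.unpair.2).getD [])).toNat
  have hK : Computable K := by
    refine (Primrec.dom_bool Bool.toNat).to_comp.comp (hG.comp ?_ ?_)
    · exact Computable.fst.comp Computable.unpair
    · exact Computable.option_getD (Computable.decode.comp (Computable.snd.comp Computable.unpair))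
        (Computable.const [])
  have hK' : Nat.RecursiveIn {chi f} fun x => Part.some (K x) :=
    (Partrec.nat_iff.1 hK.partrec).recursiveIn
  have hh' : Nat.RecursiveIn {chi f} fun x => Part.some (h x) :=
    (Partrec.nat_iff.1 hh.partrec).recursiveIn
  have hid : Nat.RecursiveIn {chi f} fun x => Part.some x :=
    (Primrec.nat_iff.1 Primrec.id).recursiveIn
  have h1 := Nat.RecursiveIn.comp hK' (.pair hid (.comp (recursiveIn_pre f) hh'))
  refine h1.of_eq fun n => ?_
  simp only [Part.bind_eq_bind, Part.bind_some, chi, Seq.seq, Part.map_eq_map,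
      Part.map_some, K, Nat.unpair_pair, encodek, Option.getD_some]
  rw [hA]

end Pool.Agent.Lib.MP_85df58_lc
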