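import Pool.Agent.Lib.MP_85df58_lc.Cond
import Pool.Agent.Lib.MP_85df58_lc.Reduction

/-!
# The two easy cases of the main lemma
-/

namespace Pool.Agent.Lib.MP_85df58_lc

variable {ℓ : ℕ → ℕ}

/-- The functional `F` is monotone. -/
def MonoN (F : Node → ℕ → Part Bool) : Prop :=
  ∀ ρ ρ' n v, ρ <:+ ρ' → v ∈ F ρ n → v ∈ F ρ' n

/-- The infinite binary sequence defined by a branch. -/
def real (x : ℕ → Node) (i : ℕ) : Bool := (bits (x (i + 1))).getD i false

/-- The possible outcomes for a functional along a branch. -/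
def Decided (F : Node → ℕ → Part Bool) (x : ℕ → Node) : Prop :=
  (∃ n, ∀ k, ¬ (F (x k) n).Dom) ∨
  (∃ X : ℕ → Bool, Computable X ∧ ∀ k n v, v ∈ F (x k) n → v = X n) ∨
  ∃ G : ℕ → List Bool → Bool, Computable₂ G ∧ ∃ h : ℕ → ℕ, Computable h ∧
    ∀ f : ℕ → Bool, (∀ n, ∃ k, f n ∈ F (x k) n) → ∀ i, real x i = G i (pre f (h i))

/-- The strings on which `F` converges at `n`. -/
def Conv (F : Node → ℕ → Part Bool) (n : ℕ) : Set Node := {ρ | (F ρ n).Dom}

/-- The strings on which `F` disagrees with `X`. -/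
def Dis (F : Node → ℕ → Part Bool) (X : ℕ → Bool) : Set Node := {ρ | ∃ n, ∃ v ∈ F ρ n, v ≠ X n}

theorem MonoN.conv {F : Node → ℕ → Part Bool} (hF : MonoN F) {n : ℕ} {ρ ρ' : Node}
    (h : ρ <:+ ρ') (hρ : ρ ∈ Conv F n) : ρ' ∈ Conv F n := by
  obtain ⟨v, hv⟩ := Part.dom_iff_mem.1 hρ
  exact Part.dom_iff_mem.2 ⟨v, hF _ _ _ _ h hv⟩

theorem case_one (hℓ : ∀ i, 1 ≤ ℓ i) (q : Cond ℓ) {F : Node → ℕ → Part Bool} (hF : Partrec₂ F)
    (hFm : MonoN F) {m : ℕ → ℕ} (hm : Computable m) (hgap : Gap ℓ m q.g)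
    (hlvl : ∀ j, q.σ.length ≤ j → 1 ≤ m j ∧ 2 * m j ≤ q.g j) {τ : Node} (hτT : τ ∈ q.T)
    (hτ : q.σ <:+ τ) {n : ℕ} (hbig : ¬ Big (fun j => 2 * m j) ((Conv F n ∪ q.B) ∩ q.T) τ) :
    ∃ p' : Cond ℓ, Ext p' q ∧ ∀ x, IsBranch x → Meets p' x → Decided F x := by
  refine ⟨{ σ := τ, T := q.T, B := Conv F n ∪ q.B, g := q.g, b := fun j => 2 * m j,
            ceT := q.ceT, ceB := ?_, cg := q.cg, cb := ?_, mem := hτT, valid := q.valid,
            down := fun c ν h h' => q.down c ν h (hτ.trans h'), up := ?_,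
            bushy := ?_, small := hbig, lvl := ?_, gap := gap_two_mul hℓ hgap }, ?_, ?_⟩
  · refine CE.or (p := fun ν => ν ∈ Conv F n) ?_ q.ceB
    exact CE.dom (hF.comp Computable.id (Computable.const n))
  · exact (Primrec.nat_mul.to_comp.comp (Computable.const 2) hm)
  · rintro a ν (h | h)
    · exact .inl (hFm.conv (List.suffix_cons _ _) h)
    · exact .inr (q.up _ _ h)
  · intro ν h h'
    exact (q.bushy ν h (hτ.trans h')).imp .inr id
  · intro j hj
    have := hlvl j (hτ.length_le.trans hj)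
    exact ⟨by omega, this.2⟩
  · exact ⟨hτ, fun ν h _ => h, fun ν _ _ h => .inr h⟩
  · intro x hx hm
    refine .inl ⟨n, fun k hk => ?_⟩
    refine (hm.mem (max k τ.length) (le_max_right _ _)).2 (.inl ?_)
    exact hFm.conv (hx.suffix (le_max_left _ _)) hk

theorem case_two (q : Cond ℓ) {F : Node → ℕ → Part Bool} (hF : Partrec₂ F)
    (hFm : MonoN F) {m : ℕ → ℕ} (hm : Computable m) (hgap : Gap ℓ m q.g)
    (hlvl : ∀ j, q.σ.length ≤ j → 1 ≤ m j ∧ 2 * m j ≤ q.g j)
    (hone : ∀ τ ∈ q.T, q.σ <:+ τ → ∀ n, Big (fun j => 2 * m j) ((Conv F n ∪ q.B) ∩ q.T) τ)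
    {τ : Node} (hτT : τ ∈ q.T) (hτ : q.σ <:+ τ) {X : ℕ → Bool}
    (hbig : ¬ Big m ((Dis F X ∪ q.B) ∩ q.T) τ) :
    ∃ p' : Cond ℓ, Ext p' q ∧ ∀ x, IsBranch x → Meets p' x → Decided F x := by
  classical
  -- `X` is computable
  have hX : Computable X := by
    let S : ℕ × Bool → Set Node := fun y => ({ρ | y.2 ∈ F ρ y.1} ∪ q.B) ∩ q.T
    have hS : CE fun z : (ℕ × Bool) × Node => z.2 ∈ S z.1 := by
      refine CE.and (CE.or ?_ ?_) ?_
      · have h1 : CE fun w : (Node × ℕ) × Bool => w.2 ∈ F w.1.1 w.1.2 :=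
          CE.graph (f := fun y : Node × ℕ => F y.1 y.2) hF
        exact h1.comp (f := fun z : (ℕ × Bool) × Node => ((z.2, z.1.1), z.1.2))
          (Primrec.pair (Primrec.pair Primrec.snd (Primrec.fst.comp Primrec.fst))
            (Primrec.snd.comp Primrec.fst))
      · exact q.ceB.comp Primrec.snd
      · exact q.ceT.comp Primrec.snd
    refine computable_of_graph (ce_big hm hS τ) fun n v => ?_
    constructor
    · intro h
      by_contra hne
      refine hbig (h.mono (fun _ _ => le_rfl) ?_)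
      rintro ρ ⟨h1 | h1, h2⟩ -
      · exact ⟨.inl ⟨n, v, h1, hne⟩, h2⟩
      · exact ⟨.inr h1, h2⟩
    · rintro rfl
      have h1 : Big (fun j => 2 * m j)
          (S (n, X n) ∪ ((Dis F X ∪ q.B) ∩ q.T)) τ := by
        refine (hone τ hτT hτ n).mono (fun _ _ => le_rfl) ?_
        rintro ρ ⟨h1 | h1, h2⟩ -
        · obtain ⟨v, hv⟩ := Part.dom_iff_mem.1 h1
          by_cases hvn : v = X n
          · exact .inl ⟨.inl (by rw [← hvn]; exact hv), h2⟩
          · exact .inr ⟨.inl ⟨n, v, hv, hvn⟩, h2⟩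
        · exact .inl ⟨.inr h1, h2⟩
      exact (h1.union (c₁ := m) (c₂ := m) fun j _ => by omega).resolve_right hbig
  refine ⟨{ σ := τ, T := q.T, B := Dis F X ∪ q.B, g := q.g, b := m,
            ceT := q.ceT, ceB := ?_, cg := q.cg, cb := hm, mem := hτT, valid := q.valid,
            down := fun c ν h h' => q.down c ν h (hτ.trans h'), up := ?_,
            bushy := ?_, small := hbig, lvl := ?_, gap := hgap }, ?_, ?_⟩
  · refine CE.or (p := fun ν => ν ∈ Dis F X) ?_ q.ceB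
    have h1 : CE fun w : (Node × ℕ) × Bool => w.2 ∈ F w.1.1 w.1.2 :=
      CE.graph (f := fun y : Node × ℕ => F y.1 y.2) hF
    have h2 : CE fun w : (Node × ℕ) × Bool => w.2 ≠ X w.1.2 := by
      have h3 : Computable fun w : (Node × ℕ) × Bool => decide (w.2 ≠ X w.1.2) := by
        have h4 : Primrec₂ fun a b : Bool => decide (a ≠ b) := Primrec.dom_bool₂ _
        exact h4.to_comp.comp Computable.snd
          (hX.comp (Computable.snd.comp Computable.fst))
      exact CE.of_computable h3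
    have h5 := (h1.and h2).exists
    exact h5.exists.of_eq fun ν => Iff.rfl
  · rintro a ν (⟨n, v, h, h'⟩ | h)
    · exact .inl ⟨n, v, hFm _ _ _ _ (List.suffix_cons _ _) h, h'⟩
    · exact .inr (q.up _ _ h)
  · intro ν h h'
    exact (q.bushy ν h (hτ.trans h')).imp .inr id
  · intro j hj
    have := hlvl j (hτ.length_le.trans hj)
    exact ⟨this.1, by omega⟩
  · exact ⟨hτ, fun ν h _ => h, fun ν _ _ h => .inr h⟩
  · intro x hx hmx
    refine .inr (.inl ⟨X, hX, fun k n v hv => ?_⟩)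
    by_contra hne
    refine (hmx.mem (max k τ.length) (le_max_right _ _)).2 (.inl ?_)
    exact ⟨n, v, hFm _ _ _ _ (hx.suffix (le_max_left _ _)) hv, hne⟩

end Pool.Agent.Lib.MP_85df58_lc
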