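import Pool.Agent.Lib.MP_85df58_lc.Minimal

/-!
# Kolmogorov complexity
-/

namespace Pool.Agent.Lib.MP_85df58_lc

open Encodable

/-- The code `1 ^ |s| 0 s` of the string `s`. -/
def dbl (s : List Bool) : List Bool := s.map (fun _ => true) ++ false :: s

theorem dbl_length (s : List Bool) : (dbl s).length = 2 * s.length + 1 := by
  simp only [dbl, List.length_append, List.length_map, List.length_cons]
  omega

theorem dbl_isPrefix {s t : List Bool} (h : dbl s <+: dbl t) : s = t := by
  obtain ⟨r, hr⟩ := h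
  have key : ∀ (a b u v : List Bool), a.map (fun _ => true) ++ false :: u =
      b.map (fun _ => true) ++ false :: v → a.length = b.length ∧ u = v := by
    intro a
    induction a with
    | nil =>
      intro b u v h
      cases b with
      | nil => exact ⟨rfl, by simpa using h⟩
      | cons b bs => simp at h
    | cons a as ih =>
      intro b u v h
      cases b with
      | nil => simp at h
      | cons b bs =>
        simp only [List.map_cons, List.cons_append, List.cons.injEq, true_and] at h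
        obtain ⟨h1, h2⟩ := ih bs u v h
        exact ⟨by simp [h1], h2⟩
  have h1 : s.map (fun _ => true) ++ false :: (s ++ r) = t.map (fun _ => true) ++ false :: t := by
    rw [← dbl, ← hr, dbl]
    simp
  obtain ⟨h2, h3⟩ := key _ _ _ _ h1
  have h4 : r.length = 0 := by
    have := congrArg List.length h3
    rw [List.length_append] at this
    omega
  rw [List.length_eq_zero_iff.1 h4, List.append_nil] at h3
  exact h3

theorem primrec_dbl : Primrec dbl :=
  Primrec.list_append.comp (Primrec.list_map Primrec.id (Primrec.const true).to₂)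
    (Primrec.list_cons.comp (Primrec.const false) Primrec.id)

/-- The machine that decodes `dbl`. -/
theorem exists_dbl : ∃ V : List Bool →. List Bool, IsMachine V ∧ ∀ s, s ∈ V (dbl s) := by
  have h1 : CE fun z : List Bool × List Bool => z.1 = dbl z.2 :=
    CE.of_primrec (Primrec.eq.comp Primrec.fst (primrec_dbl.comp Primrec.snd))
  obtain ⟨V, hV, hV1, hV2⟩ := h1.select
  refine ⟨V, ⟨hV, fun p q hp hq hpq => ?_⟩, fun s => ?_⟩
  · have h2 := hV1 p _ (Part.get_mem hp)
    have h3 := hV1 q _ (Part.get_mem hq)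
    simp only at h2 h3
    rw [h2, h3] at hpq
    rw [h2, h3, dbl_isPrefix hpq]
  · have hd := hV2 (dbl s) ⟨s, rfl⟩
    have h2 := hV1 _ _ (Part.get_mem hd)
    have h3 : s = (V (dbl s)).get hd := dbl_isPrefix (by rw [← h2])
    have h4 := Part.get_mem hd
    rwa [← h3] at h4

theorem K_le {U : List Bool →. List Bool} (hU : IsUniversal U) :
    ∃ c, ∀ s, K U s ≤ 2 * s.length + 1 + c := by
  obtain ⟨V, hV, hV1⟩ := exists_dbl
  obtain ⟨c, hc⟩ := hU.optimal V hV
  refine ⟨c, fun s => ?_⟩
  obtain ⟨q, hq, hl⟩ := hc _ _ (hV1 s)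
  rw [dbl_length] at hl
  have h1 : K U s ≤ q.length := Nat.sInf_le ⟨q, hq, rfl⟩
  exact h1.trans hl

theorem exists_program {U : List Bool →. List Bool} (hU : IsUniversal U) (s : List Bool) :
    ∃ p, s ∈ U p ∧ p.length = K U s := by
  obtain ⟨V, hV, hV1⟩ := exists_dbl
  obtain ⟨c, hc⟩ := hU.optimal V hV
  obtain ⟨q, hq, -⟩ := hc _ _ (hV1 s)
  exact Nat.sInf_mem (s := {n | ∃ p : List Bool, s ∈ U p ∧ p.length = n}) ⟨_, q, hq, rfl⟩

theorem natString_length_le {n m : ℕ} (h : n + 1 ≤ 2 ^ m) : (natString n).length ≤ m := by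
  have h1 : (n + 1).size ≤ m + 1 := Nat.size_le.2 (by rw [pow_succ]; omega)
  rw [natString, List.length_reverse, List.length_dropLast, Nat.size_eq_bits_len]
  omega

theorem exists_level (n : ℕ) : ∃ j, nlen len j ≤ n ∧ n < nlen len (j + 1) := by
  have h1 : ∃ j, n < nlen len j := ⟨n + 1, le_nlen one_le_len (n + 1)⟩
  have h2 := Nat.find_spec h1
  have h3 : Nat.find h1 ≠ 0 := by
    intro h0
    rw [h0] at h2
    simp [nlen] at h2
  refine ⟨Nat.find h1 - 1, ?_, ?_⟩
  · have h4 := Nat.find_min h1 (m := Nat.find h1 - 1) (by omega)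
    omega
  · have h4 : Nat.find h1 - 1 + 1 = Nat.find h1 := by omega
    rw [h4]
    exact h2

theorem growth {j : ℕ} (hj : 2 ≤ j) : 4 * ((j + 2) ^ 2 + 1) ≤ qlen j := by
  have h1 : ∀ m, 7 ≤ m → 6 * m + 26 ≤ 2 ^ m := by
    intro m hm
    induction m, hm using Nat.le_induction with
    | base => norm_num
    | succ m hm ih => rw [pow_succ]; omega
  have h2 : 2 * j ≤ j ^ 2 := by rw [sq]; exact Nat.mul_le_mul_right _ hj
  have h3 : (j + 1) ^ 2 = j ^ 2 + 2 * j + 1 := by ring
  have h4 : (j + 2) ^ 2 = j ^ 2 + 4 * j + 4 := by ring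
  refine le_trans ?_ (h1 ((j + 1) ^ 2 - 2) (by omega))
  omega

theorem exists_answer : ∃ A : ℕ → Bool, MinimalDegree A ∧
    ∀ U : List Bool →. List Bool, IsUniversal U →
      ∃ C : ℕ, ∀ n : ℕ, 2 * K U (natString n) < K U (pre A n) + C := by
  obtain ⟨A, hA, hA'⟩ := exists_minimal
  refine ⟨A, hA, fun U hU => ?_⟩
  obtain ⟨j₀, hj₀⟩ := hA' U hU.machine.partrec
  obtain ⟨c, hc⟩ := K_le hU
  refine ⟨4 * ((j₀ + 2 + 2) ^ 2 + 1) + 3 + 2 * c, fun n => ?_⟩
  obtain ⟨j, hj1, hj2⟩ := exists_level n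
  have h1 : (natString n).length ≤ (j + 2) ^ 2 + 1 := by
    refine natString_length_le (le_trans hj2 ?_)
    exact nlen_len_le (j + 1)
  have h2 := hc (natString n)
  by_cases hj : j₀ + 2 ≤ j
  · obtain ⟨p, hp, hl⟩ := exists_program hU (pre A n)
    have h3 := hj₀ j (by omega) p _ hp (pre_mono A hj1)
    have h4 := growth (j := j) (by omega)
    rw [hl] at h3
    have h5 : 1 ≤ (j₀ + 2 + 2) ^ 2 + 1 := by omega
    omega
  · have h3 : (j + 2) ^ 2 ≤ (j₀ + 2 + 2) ^ 2 := Nat.pow_le_pow_left (by omega) 2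
    omega

end Pool.Agent.Lib.MP_85df58_lc
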