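import Pool.Agent.Lib.MP_85df58_lc.Nodes
import Pool.Agent.Lib.MP_85df58_lc.BigCE

/-!
# Forcing conditions
-/

namespace Pool.Agent.Lib.MP_85df58_lc

/-- A forcing condition: a stem `σ` in an enumerable tree `T` which is `g`-bushy above `σ` except
for leaves in the enumerable set `B` of forbidden strings, where `B` is not `b`-big above `σ`. -/
structure Cond (ℓ : ℕ → ℕ) where
  /-- the stem -/
  σ : Node
  /-- the tree -/
  T : Set Node
  /-- the forbidden strings -/
  B : Set Node
  /-- the bushiness of the tree -/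
  g : ℕ → ℕ
  /-- the threshold for smallness -/
  b : ℕ → ℕ
  ceT : CE fun ν => ν ∈ T
  ceB : CE fun ν => ν ∈ B
  cg : Computable g
  cb : Computable b
  mem : σ ∈ T
  valid : ∀ ν ∈ T, Valid ℓ ν
  down : ∀ a ν, a :: ν ∈ T → σ <:+ ν → ν ∈ T
  up : ∀ a ν, ν ∈ B → a :: ν ∈ B
  bushy : ∀ ν ∈ T, σ <:+ ν →
    ν ∈ B ∨ ∃ C : Finset (List Bool), g ν.length ≤ C.card ∧ ∀ a ∈ C, a :: ν ∈ T
  small : ¬ Big b (B ∩ T) σ
  lvl : ∀ j, σ.length ≤ j → 1 ≤ b j ∧ b j ≤ g j
  gap : Gap ℓ b g

variable {ℓ : ℕ → ℕ}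

/-- `p'` is an extension of `p`. -/
structure Ext (p' p : Cond ℓ) : Prop where
  stem : p.σ <:+ p'.σ
  sub : ∀ ν ∈ p'.T, p'.σ <:+ ν → ν ∈ p.T
  bad : ∀ ν ∈ p'.T, p'.σ <:+ ν → ν ∈ p.B → ν ∈ p'.B

theorem Ext.refl (p : Cond ℓ) : Ext p p := ⟨List.suffix_refl _, fun _ h _ => h, fun _ _ _ h => h⟩

theorem Ext.trans {p q r : Cond ℓ} (h : Ext p q) (h' : Ext q r) : Ext p r :=
  ⟨h'.stem.trans h.stem, fun ν hν hs => h'.sub ν (h.sub ν hν hs) (h.stem.trans hs),
    fun ν hν hs hB => h.bad ν hν hs (h'.bad ν (h.sub ν hν hs) (h.stem.trans hs) hB)⟩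

theorem Cond.stem_notMem (p : Cond ℓ) : p.σ ∉ p.B := fun h => p.small (.base ⟨h, p.mem⟩)

/-- A branch: a sequence of nodes each of which extends the preceding one by one block. -/
structure IsBranch (x : ℕ → Node) : Prop where
  zero : x 0 = []
  succ : ∀ k, ∃ a, x (k + 1) = a :: x k

theorem IsBranch.length {x : ℕ → Node} (hx : IsBranch x) (k : ℕ) : (x k).length = k := by
  induction k with
  | zero => simp [hx.zero]
  | succ k ih =>
    obtain ⟨a, ha⟩ := hx.succ k
    rw [ha, List.length_cons, ih]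

theorem IsBranch.suffix {x : ℕ → Node} (hx : IsBranch x) {k l : ℕ} (h : k ≤ l) : x k <:+ x l := by
  induction l, h using Nat.le_induction with
  | base => exact List.suffix_refl _
  | succ l _ ih =>
    obtain ⟨a, ha⟩ := hx.succ l
    rw [ha]
    exact ih.trans (List.suffix_cons _ _)

theorem suffix_eq_of_length {ν μ ρ : Node} (h1 : ν <:+ ρ) (h2 : μ <:+ ρ)
    (h : ν.length = μ.length) : ν = μ :=
  (List.suffix_of_suffix_length_le h1 h2 h.le).eq_of_length h

/-- The branch `x` meets the condition `p`. -/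
structure Meets (p : Cond ℓ) (x : ℕ → Node) : Prop where
  stem : x p.σ.length = p.σ
  mem : ∀ k, p.σ.length ≤ k → x k ∈ p.T ∧ x k ∉ p.B

theorem up_suffix {B : Set Node} (up : ∀ a ν, ν ∈ B → a :: ν ∈ B) {ν μ : Node} (h : ν <:+ μ)
    (hν : ν ∈ B) : μ ∈ B := by
  obtain ⟨t, rfl⟩ := h
  induction t with
  | nil => exact hν
  | cons a t ih => exact up _ _ ih

theorem Meets.of_ext {p' p : Cond ℓ} (h : Ext p' p) {x : ℕ → Node} (hx : IsBranch x)
    (hm : Meets p' x) : Meets p x := by
  have hlen := h.stem.length_le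
  have hσ' : x p'.σ.length = p'.σ := hm.stem
  have hstem : x p.σ.length = p.σ := by
    refine suffix_eq_of_length (ρ := p'.σ) ?_ h.stem (hx.length _)
    rw [← hσ']
    exact hx.suffix hlen
  refine ⟨hstem, fun k hk => ?_⟩
  by_cases hk' : p'.σ.length ≤ k
  · have hs : p'.σ <:+ x k := by
      conv_lhs => rw [← hσ']
      exact hx.suffix hk'
    obtain ⟨h1, h2⟩ := hm.mem k hk'
    exact ⟨h.sub _ h1 hs, fun h3 => h2 (h.bad _ h1 hs h3)⟩
  · push Not at hk'
    -- go down from the stem of `p'`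
    have hT' : p'.σ ∈ p.T := h.sub _ p'.mem (List.suffix_refl _)
    have hdown : ∀ d, p.σ.length ≤ p'.σ.length - d → x (p'.σ.length - d) ∈ p.T := by
      intro d
      induction d with
      | zero => intro _; rw [Nat.sub_zero, hσ']; exact hT'
      | succ d ih =>
        intro hd
        by_cases hd' : p'.σ.length ≤ d
        · have h0 : p'.σ.length - (d + 1) = p'.σ.length - d := by omega
          rw [h0] at hd ⊢
          exact ih hd
        · push Not at hd'
          have h1 := ih (by omega)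
          obtain ⟨a, ha⟩ := hx.succ (p'.σ.length - (d + 1))
          have h2 : p'.σ.length - (d + 1) + 1 = p'.σ.length - d := by omega
          rw [h2] at ha
          rw [ha] at h1
          refine p.down a _ h1 ?_
          conv_lhs => rw [← hstem]
          exact hx.suffix hd
    constructor
    · have := hdown (p'.σ.length - k) (by omega)
      have h2 : p'.σ.length - (p'.σ.length - k) = k := by omega
      rwa [h2] at this
    · intro hB
      have h1 : p'.σ ∈ p.B := by
        refine up_suffix p.up ?_ hB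
        conv_rhs => rw [← hσ']
        exact hx.suffix hk'.le
      exact p'.stem_notMem (h.bad _ p'.mem (List.suffix_refl _) h1)

/-- One step extension of the stem. -/
theorem Cond.exists_step (p : Cond ℓ) : ∃ p' : Cond ℓ, Ext p' p ∧ p'.T = p.T ∧ p'.B = p.B ∧
    p'.g = p.g ∧ p'.b = p.b ∧ p'.σ.length = p.σ.length + 1 := by
  obtain ⟨C, hC, hC'⟩ := (p.bushy _ p.mem (List.suffix_refl _)).resolve_left p.stem_notMem
  have h1 : ∃ a ∈ C, ¬ Big p.b (p.B ∩ p.T) (a :: p.σ) := by
    by_contra hcon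
    push Not at hcon
    exact p.small (.step C ((p.lvl _ le_rfl).2.trans hC) hcon)
  obtain ⟨a, ha, hbig⟩ := h1
  have hs : p.σ <:+ a :: p.σ := List.suffix_cons _ _
  refine ⟨{ σ := a :: p.σ, T := p.T, B := p.B, g := p.g, b := p.b, ceT := p.ceT, ceB := p.ceB,
            cg := p.cg, cb := p.cb, mem := hC' a ha, valid := p.valid,
            down := fun c ν h h' => p.down c ν h (hs.trans h'), up := p.up,
            bushy := fun ν h h' => p.bushy ν h (hs.trans h'), small := hbig,
            lvl := fun j hj => p.lvl j (by simp only [List.length_cons] at hj; omega),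
            gap := p.gap }, ⟨hs, fun ν h _ => h, fun ν _ _ h => h⟩, rfl, rfl, rfl, rfl, ?_⟩
  simp

theorem Cond.exists_long (p : Cond ℓ) (L : ℕ) : ∃ p' : Cond ℓ, Ext p' p ∧ p'.T = p.T ∧
    p'.B = p.B ∧ p'.g = p.g ∧ p'.b = p.b ∧ L ≤ p'.σ.length := by
  induction L with
  | zero => exact ⟨p, Ext.refl p, rfl, rfl, rfl, rfl, Nat.zero_le _⟩
  | succ L ih =>
    obtain ⟨q, hq, h1, h2, h3, h4, h5⟩ := ih
    obtain ⟨r, hr, g1, g2, g3, g4, g5⟩ := q.exists_step
    exact ⟨r, hr.trans hq, g1.trans h1, g2.trans h2, g3.trans h3, g4.trans h4, by omega⟩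

end Pool.Agent.Lib.MP_85df58_lc
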