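import Mathlib

/-!
# Definitions used in the statement

Sets of natural numbers are identified with infinite binary sequences `A : ℕ → Bool`.
-/

namespace Pool.Agent.Lib.MP_85df58_lc

/-- The characteristic function of `A` with values `0` and `1`, used as an oracle. -/
def chi (A : ℕ → Bool) : ℕ →. ℕ := fun n => Part.some (A n).toNat

/-- The string of the first `k` bits `A 0, …, A (k - 1)` of `A`. -/
def pre (A : ℕ → Bool) (k : ℕ) : List Bool := (List.range k).map A

/-- The set `A` (given by its characteristic function) has minimal Turing degree: it is not
computable, and every set `B` computable from `A` is computable or Turing equivalent to `A`. -/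
def MinimalDegree (A : ℕ → Bool) : Prop :=
  ¬ Computable A ∧ ∀ B : ℕ → Bool, TuringReducible (chi B) (chi A) →
    Computable B ∨ TuringEquivalent (chi B) (chi A)

/-- A self-delimiting machine: a partial computable function on binary strings whose domain
contains no string together with a proper extension of it. -/
structure IsMachine (U : List Bool →. List Bool) : Prop where
  partrec : Partrec U
  free : ∀ p q : List Bool, (U p).Dom → (U q).Dom → p <+: q → p = q

/-- A universal self-delimiting machine: up to an additive constant, its programs are as short as
those of any other self-delimiting machine. Such machines exist, see the theorem
`exists_universal` in the file `Universal`. -/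
structure IsUniversal (U : List Bool →. List Bool) : Prop where
  machine : IsMachine U
  optimal : ∀ V : List Bool →. List Bool, IsMachine V →
    ∃ c : ℕ, ∀ p y : List Bool, y ∈ V p → ∃ q : List Bool, y ∈ U q ∧ q.length ≤ p.length + c

/-- Kolmogorov complexity with respect to `U`: the length of a shortest program `p` with
`U p = y`. -/
noncomputable def K (U : List Bool →. List Bool) (y : List Bool) : ℕ :=
  sInf {n | ∃ p : List Bool, y ∈ U p ∧ p.length = n}

/-- The standard identification of natural numbers with binary strings: `natString n` is the
`n`-th binary string in the length-lexicographic order, that is, the binary digits of `n + 1`,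
most significant first, without the leading `1`. -/
def natString (n : ℕ) : List Bool := ((n + 1).bits.dropLast).reverse

end Pool.Agent.Lib.MP_85df58_lc
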