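import Pool.Agent.Lib.MP_85df58_lc.StageC

/-!
# Every functional can be decided
-/

namespace Pool.Agent.Lib.MP_85df58_lc

variable {ℓ : ℕ → ℕ}

theorem exists_decided (hℓ : ∀ i, 1 ≤ ℓ i) (hℓc : Primrec ℓ) (p : Cond ℓ)
    {F : Node → ℕ → Part Bool} (hF : Partrec₂ F) (hFm : MonoN F) :
    ∃ p' : Cond ℓ, Ext p' p ∧ ∀ x, IsBranch x → Meets p' x → Decided F x := by
  let m : ℕ → ℕ := fun j => Nat.sqrt (p.b j * p.g j)
  have hm : Computable m := primrec_sqrt.to_comp.comp (Primrec.nat_mul.to_comp.comp p.cb p.cg)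
  have hg1 : Gap ℓ p.b m := gap_sqrt_left p.gap
  have hg2 : Gap ℓ m p.g := gap_sqrt_right p.gap
  obtain ⟨k1, hk1⟩ := hg1 3
  obtain ⟨k2, hk2⟩ := hg2 1
  obtain ⟨q, hq, hT, hB, hg, hb, hL⟩ := p.exists_long (k1 + k2 + 1)
  have hgap1 : Gap ℓ q.b m := by rw [hb]; exact hg1
  have hgap2 : Gap ℓ m q.g := by rw [hg]; exact hg2
  have hlvl : ∀ j, q.σ.length ≤ j → 4 * lvlCard ℓ j * q.b j ≤ m j ∧ 2 * m j ≤ q.g j := by
    intro j hj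
    have h2 := two_le_lvlCard hℓ (j := j) (by omega)
    refine ⟨?_, ?_⟩
    · rw [hb]
      refine le_trans ?_ (hk1 j (by omega))
      calc 4 * lvlCard ℓ j * p.b j = (p.b j * lvlCard ℓ j) * (2 * 2) := by ring
        _ ≤ (p.b j * lvlCard ℓ j) * (lvlCard ℓ j * lvlCard ℓ j) :=
          Nat.mul_le_mul_left _ (Nat.mul_le_mul h2 h2)
        _ = p.b j * lvlCard ℓ j ^ 3 := by ring
    · rw [hg]
      refine le_trans ?_ (hk2 j (by omega))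
      rw [pow_one]
      calc 2 * m j = m j * 2 := by ring
        _ ≤ m j * lvlCard ℓ j := Nat.mul_le_mul_left _ h2
  have hlvl' : ∀ j, q.σ.length ≤ j → 1 ≤ m j ∧ 2 * m j ≤ q.g j := by
    intro j hj
    refine ⟨le_trans ?_ (hlvl j hj).1, (hlvl j hj).2⟩
    have h1 := (q.lvl j hj).1
    have h2 := lvlCard_pos ℓ j
    calc 1 = 1 * 1 := by norm_num
      _ ≤ 4 * lvlCard ℓ j * q.b j := Nat.mul_le_mul (by omega) h1
  by_cases h1 : ∃ τ ∈ q.T, q.σ <:+ τ ∧ ∃ n, ¬ Big (fun j => 2 * m j) ((Conv F n ∪ q.B) ∩ q.T) τ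
  · obtain ⟨τ, hτT, hτ, n, hbig⟩ := h1
    obtain ⟨p', hp', h⟩ := case_one hℓ q hF hFm hm hgap2 hlvl' hτT hτ hbig
    exact ⟨p', hp'.trans hq, h⟩
  push Not at h1
  by_cases h2 : ∃ τ ∈ q.T, q.σ <:+ τ ∧ ∃ X : ℕ → Bool, ¬ Big m ((Dis F X ∪ q.B) ∩ q.T) τ
  · obtain ⟨τ, hτT, hτ, X, hbig⟩ := h2
    obtain ⟨p', hp', h⟩ := case_two q hF hFm hm hgap2 hlvl' h1 hτT hτ hbig
    exact ⟨p', hp'.trans hq, h⟩
  push Not at h2
  obtain ⟨p', hp', h⟩ := case_three hℓ hℓc ⟨hF, hFm, hm, hlvl, hgap1, h1, h2⟩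
  exact ⟨p', hp'.trans hq, h⟩

end Pool.Agent.Lib.MP_85df58_lc
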