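import Pool.Agent.Lib.MP_85df58_lc.Defs

/-!
# Oracle computations as monotone functionals on finite strings
-/

namespace Pool.Agent.Lib.MP_85df58_lc

open Encodable Primrec

theorem pre_length (A : ℕ → Bool) (k : ℕ) : (pre A k).length = k := by simp [pre]

theorem pre_mono (A : ℕ → Bool) {k l : ℕ} (h : k ≤ l) : pre A k <+: pre A l := by
  obtain ⟨m, rfl⟩ := Nat.exists_eq_add_of_le h
  induction m with
  | zero => exact List.prefix_rfl
  | succ m ih =>
    refine (ih (by omega)).trans ?_
    rw [← add_assoc]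
    simp [pre, List.range_succ]

theorem pre_getElem? (A : ℕ → Bool) (k i : ℕ) (h : i < k) : (pre A k)[i]? = some (A i) := by
  simp [pre, h]

/-- The functional `F` on finite strings is monotone. -/
def MonoF (F : List Bool → ℕ →. ℕ) : Prop :=
  ∀ s t n v, s <+: t → v ∈ F s n → v ∈ F t n

theorem exists_functional (A : ℕ → Bool) {f : ℕ →. ℕ} (h : Nat.RecursiveIn {chi A} f) :
    ∃ F : List Bool → ℕ →. ℕ, Partrec₂ F ∧ MonoF F ∧
      ∀ n v, v ∈ f n ↔ ∃ k, v ∈ F (pre A k) n := by
  induction h with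
  | zero =>
    exact ⟨fun _ _ => Part.some 0, (Computable.const 0).partrec, fun s t n v _ h => h,
      fun n v => ⟨fun h => ⟨0, h⟩, fun ⟨_, h⟩ => h⟩⟩
  | succ =>
    exact ⟨fun _ n => Part.some (n + 1), (Computable.succ.comp Computable.snd).partrec,
      fun s t n v _ h => h, fun n v => ⟨fun h => ⟨0, h⟩, fun ⟨_, h⟩ => h⟩⟩
  | left =>
    exact ⟨fun _ n => Part.some n.unpair.1,
      (Computable.fst.comp (Computable.unpair.comp Computable.snd)).partrec,
      fun s t n v _ h => h, fun n v => ⟨fun h => ⟨0, h⟩, fun ⟨_, h⟩ => h⟩⟩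
  | right =>
    exact ⟨fun _ n => Part.some n.unpair.2,
      (Computable.snd.comp (Computable.unpair.comp Computable.snd)).partrec,
      fun s t n v _ h => h, fun n v => ⟨fun h => ⟨0, h⟩, fun ⟨_, h⟩ => h⟩⟩
  | oracle g hg =>
    obtain rfl : g = chi A := hg
    refine ⟨fun s n => ((s[n]?).map Bool.toNat : Option ℕ), ?_, ?_, ?_⟩
    · have h1 : Computable fun x : List Bool × ℕ => (x.1[x.2]?).map Bool.toNat :=
        (Primrec.option_map (list_getElem?.comp fst snd)
          ((Primrec.dom_bool Bool.toNat).comp snd).to₂).to_comp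
      exact h1.ofOption
    · intro s t n v hst hv
      simp only [Part.mem_ofOption, Option.mem_def, Option.map_eq_some_iff] at hv ⊢
      obtain ⟨b, hb, rfl⟩ := hv
      refine ⟨b, ?_, rfl⟩
      obtain ⟨u, rfl⟩ := hst
      have hn : n < s.length := by
        by_contra hn
        rw [List.getElem?_eq_none (by omega)] at hb
        simp at hb
      rw [List.getElem?_append_left hn]
      exact hb
    · intro n v
      simp only [chi, Part.mem_some_iff, Part.mem_ofOption, Option.mem_def,
        Option.map_eq_some_iff]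
      constructor
      · rintro rfl
        exact ⟨n + 1, A n, pre_getElem? A _ _ (by omega), rfl⟩
      · rintro ⟨k, b, hb, rfl⟩
        have hn : n < k := by
          by_contra hn
          rw [List.getElem?_eq_none (by rw [pre_length]; omega)] at hb
          simp at hb
        rw [pre_getElem? A _ _ hn] at hb
        obtain rfl := Option.some.inj hb
        rfl
  | @pair f h _ _ ihf ihh =>
    obtain ⟨F, hF, hFm, hFf⟩ := ihf
    obtain ⟨H, hH, hHm, hHh⟩ := ihh
    refine ⟨fun s n => (F s n).bind fun a => (H s n).map fun b => Nat.pair a b, ?_, ?_, ?_⟩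
    · refine Partrec.bind hF ?_
      refine Partrec.map (hH.comp (Computable.fst.comp Computable.fst)
        (Computable.snd.comp Computable.fst)) ?_
      exact (Primrec₂.natPair.to_comp.comp (Computable.snd.comp Computable.fst) Computable.snd)
    · intro s t n v hst hv
      simp only [Part.mem_bind_iff, Part.mem_map_iff] at hv ⊢
      obtain ⟨a, ha, b, hb, rfl⟩ := hv
      exact ⟨a, hFm _ _ _ _ hst ha, b, hHm _ _ _ _ hst hb, rfl⟩
    · intro n v
      simp only [Seq.seq, Part.map_eq_map, Part.mem_bind_iff, Part.mem_map_iff, hFf, hHh]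
      constructor
      · rintro ⟨g, ⟨a, ⟨k, hk⟩, rfl⟩, b, ⟨l, hl⟩, rfl⟩
        exact ⟨max k l, a, hFm _ _ _ _ (pre_mono A (le_max_left _ _)) hk, b,
          hHm _ _ _ _ (pre_mono A (le_max_right _ _)) hl, rfl⟩
      · rintro ⟨k, a, ha, b, hb, rfl⟩
        exact ⟨_, ⟨a, ⟨k, ha⟩, rfl⟩, b, ⟨k, hb⟩, rfl⟩
  | @comp f h _ _ ihf ihh =>
    obtain ⟨F, hF, hFm, hFf⟩ := ihf
    obtain ⟨H, hH, hHm, hHh⟩ := ihh
    refine ⟨fun s n => (H s n).bind fun b => F s b, ?_, ?_, ?_⟩
    · exact Partrec.bind hH (hF.comp (Computable.fst.comp Computable.fst) Computable.snd)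
    · intro s t n v hst hv
      simp only [Part.mem_bind_iff] at hv ⊢
      obtain ⟨b, hb, hv⟩ := hv
      exact ⟨b, hHm _ _ _ _ hst hb, hFm _ _ _ _ hst hv⟩
    · intro n v
      constructor
      · intro hv
        obtain ⟨b, hb, hv⟩ := Part.mem_bind_iff.1 hv
        obtain ⟨k, hk⟩ := (hHh _ _).1 hb
        obtain ⟨l, hl⟩ := (hFf _ _).1 hv
        exact ⟨max k l, Part.mem_bind_iff.2 ⟨b, hHm _ _ _ _ (pre_mono A (le_max_left _ _)) hk,
          hFm _ _ _ _ (pre_mono A (le_max_right _ _)) hl⟩⟩
      · rintro ⟨k, hv⟩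
        obtain ⟨b, hb, hv⟩ := Part.mem_bind_iff.1 hv
        exact Part.mem_bind_iff.2 ⟨b, (hHh _ _).2 ⟨k, hb⟩, (hFf _ _).2 ⟨k, hv⟩⟩
  | @prec f h _ _ ihf ihh =>
    obtain ⟨F, hF, hFm, hFf⟩ := ihf
    obtain ⟨H, hH, hHm, hHh⟩ := ihh
    let R : List Bool → ℕ → ℕ →. ℕ := fun s a n =>
      n.rec (F s a) fun y IH => IH.bind fun i => H s (Nat.pair a (Nat.pair y i))
    refine ⟨fun s p => R s p.unpair.1 p.unpair.2, ?_, ?_, ?_⟩
    · have h1 : Partrec fun x : List Bool × ℕ => F x.1 x.2.unpair.1 :=
        hF.comp Computable.fst (Computable.fst.comp (Computable.unpair.comp Computable.snd))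
      have h2 : Partrec₂ fun (x : List Bool × ℕ) (y : ℕ × ℕ) =>
          H x.1 (Nat.pair x.2.unpair.1 (Nat.pair y.1 y.2)) := by
        refine hH.comp (Computable.fst.comp Computable.fst) ?_
        refine Primrec₂.natPair.to_comp.comp
          (Computable.fst.comp (Computable.unpair.comp (Computable.snd.comp Computable.fst))) ?_
        exact Primrec₂.natPair.to_comp.comp (Computable.fst.comp Computable.snd)
          (Computable.snd.comp Computable.snd)
      exact Partrec.nat_rec (Computable.snd.comp (Computable.unpair.comp Computable.snd)) h1 h2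
    · intro s t p v hst
      change v ∈ R s p.unpair.1 p.unpair.2 → v ∈ R t p.unpair.1 p.unpair.2
      generalize p.unpair.1 = a
      generalize p.unpair.2 = n
      induction n generalizing v with
      | zero => exact fun hv => hFm _ _ _ _ hst hv
      | succ n ih =>
        intro hv
        simp only [R, Part.mem_bind_iff] at hv ⊢
        obtain ⟨i, hi, hv⟩ := hv
        exact ⟨i, ih _ hi, hHm _ _ _ _ hst hv⟩
    · intro p v
      have key : ∀ a n v, v ∈ (n.rec (f a) fun y IH => do
          let i ← IH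
          h (Nat.pair a (Nat.pair y i)) : Part ℕ) ↔ ∃ k, v ∈ R (pre A k) a n := by
        intro a n
        have hRm : ∀ n s t v, s <+: t → v ∈ R s a n → v ∈ R t a n := by
          intro n s t v hst
          induction n generalizing v with
          | zero => exact fun hv => hFm _ _ _ _ hst hv
          | succ n ih =>
            intro hv
            simp only [R, Part.mem_bind_iff] at hv ⊢
            obtain ⟨i, hi, hv⟩ := hv
            exact ⟨i, ih _ hi, hHm _ _ _ _ hst hv⟩
        induction n with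
        | zero => intro v; exact hFf a v
        | succ n ih =>
          intro v
          simp only [Part.bind_eq_bind, Part.mem_bind_iff, hHh]
          constructor
          · rintro ⟨i, hi, l, hl⟩
            obtain ⟨k, hk⟩ := (ih i).1 hi
            refine ⟨max k l, ?_⟩
            simp only [R, Part.mem_bind_iff]
            exact ⟨i, hRm _ _ _ _ (pre_mono A (le_max_left _ _)) hk,
              hHm _ _ _ _ (pre_mono A (le_max_right _ _)) hl⟩
          · rintro ⟨k, hk⟩
            simp only [R, Part.mem_bind_iff] at hk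
            obtain ⟨i, hi, hv⟩ := hk
            exact ⟨i, (ih i).2 ⟨k, hi⟩, k, hv⟩
      exact key p.unpair.1 p.unpair.2 v
  | @rfind f _ ih =>
    obtain ⟨F, hF, hFm, hFf⟩ := ih
    refine ⟨fun s a => Nat.rfind fun n => (F s (Nat.pair a n)).map fun m => decide (m = 0),
      ?_, ?_, ?_⟩
    · refine Partrec.rfind ?_
      refine Partrec.map ?_ ?_
      · exact hF.comp (Computable.fst.comp Computable.fst)
          (Primrec₂.natPair.to_comp.comp (Computable.snd.comp Computable.fst) Computable.snd)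
      · exact (Primrec.eq.decide.comp snd (Primrec.const 0)).to_comp
    · intro s t a v hst hv
      obtain ⟨h1, h2⟩ := Nat.mem_rfind.1 hv
      obtain ⟨m, hm, hm'⟩ := (Part.mem_map_iff _).1 h1
      refine Nat.mem_rfind.2 ⟨(Part.mem_map_iff _).2 ⟨m, hFm _ _ _ _ hst hm, hm'⟩,
        fun {j} hj => ?_⟩
      obtain ⟨m, hm, hm'⟩ := (Part.mem_map_iff _).1 (h2 hj)
      exact (Part.mem_map_iff _).2 ⟨m, hFm _ _ _ _ hst hm, hm'⟩
    · intro a v
      constructor
      · intro hv
        obtain ⟨h1, h2⟩ := Nat.mem_rfind.1 hv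
        obtain ⟨m, hm, hm'⟩ := (Part.mem_map_iff _).1 h1
        obtain ⟨k, hk⟩ := (hFf _ _).1 hm
        have h' : ∀ j, j ≤ v → ∃ l, ∀ i < j, ∃ m, m ∈ F (pre A l) (Nat.pair a i) ∧
            decide (m = 0) = false := by
          intro j
          induction j with
          | zero => intro _; exact ⟨0, by simp⟩
          | succ j ih =>
            intro hj
            obtain ⟨l, hl⟩ := ih (by omega)
            have h3 := h2 (Nat.lt_of_succ_le hj)
            obtain ⟨m, hm, hm'⟩ := (Part.mem_map_iff _).1 h3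
            obtain ⟨l', hl'⟩ := (hFf _ _).1 hm
            refine ⟨max l l', fun i hi => ?_⟩
            rcases Nat.lt_succ_iff_lt_or_eq.1 hi with hi | rfl
            · obtain ⟨m, hm, hm'⟩ := hl i hi
              exact ⟨m, hFm _ _ _ _ (pre_mono A (le_max_left _ _)) hm, hm'⟩
            · exact ⟨m, hFm _ _ _ _ (pre_mono A (le_max_right _ _)) hl', hm'⟩
        obtain ⟨l, hl⟩ := h' v le_rfl
        refine ⟨max k l, Nat.mem_rfind.2 ⟨(Part.mem_map_iff _).2
          ⟨m, hFm _ _ _ _ (pre_mono A (le_max_left _ _)) hk, hm'⟩, fun {i} hi => ?_⟩⟩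
        obtain ⟨m, hm, hm'⟩ := hl i hi
        exact (Part.mem_map_iff _).2 ⟨m, hFm _ _ _ _ (pre_mono A (le_max_right _ _)) hm, hm'⟩
      · rintro ⟨k, hv⟩
        obtain ⟨h1, h2⟩ := Nat.mem_rfind.1 hv
        obtain ⟨m, hm, hm'⟩ := (Part.mem_map_iff _).1 h1
        refine Nat.mem_rfind.2 ⟨(Part.mem_map_iff _).2 ⟨m, (hFf _ _).2 ⟨k, hm⟩, hm'⟩,
          fun {j} hj => ?_⟩
        obtain ⟨m, hm, hm'⟩ := (Part.mem_map_iff _).1 (h2 hj)
        exact (Part.mem_map_iff _).2 ⟨m, (hFf _ _).2 ⟨k, hm⟩, hm'⟩

end Pool.Agent.Lib.MP_85df58_lc
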