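import Mathlib

/-!
# Thresholds for bushiness
-/

namespace Pool.Agent.Lib.MP_85df58_lc

open Primrec

/-- Total length of the first `j` blocks, if block `i` has length `ℓ i`. -/
def nlen (ℓ : ℕ → ℕ) (j : ℕ) : ℕ := ∑ i ∈ Finset.range j, ℓ i

/-- The number of strings of length `nlen ℓ j`. -/
def lvlCard (ℓ : ℕ → ℕ) (j : ℕ) : ℕ := 2 ^ nlen ℓ j

/-- `g` dominates `b` times every power of `lvlCard ℓ`. -/
def Gap (ℓ b g : ℕ → ℕ) : Prop := ∀ C, ∃ k, ∀ j, k ≤ j → b j * lvlCard ℓ j ^ C ≤ g j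

variable {ℓ : ℕ → ℕ}

theorem nlen_succ (ℓ : ℕ → ℕ) (j : ℕ) : nlen ℓ (j + 1) = nlen ℓ j + ℓ j := by
  simp [nlen, Finset.sum_range_succ]

theorem nlen_mono (ℓ : ℕ → ℕ) : Monotone (nlen ℓ) :=
  monotone_nat_of_le_succ fun j => by rw [nlen_succ]; omega

theorem lvlCard_pos (ℓ : ℕ → ℕ) (j : ℕ) : 1 ≤ lvlCard ℓ j := Nat.one_le_two_pow

theorem lvlCard_mono (ℓ : ℕ → ℕ) : Monotone (lvlCard ℓ) := fun _ _ h =>
  Nat.pow_le_pow_right (by norm_num) (nlen_mono ℓ h)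

theorem le_nlen (hℓ : ∀ i, 1 ≤ ℓ i) (j : ℕ) : j ≤ nlen ℓ j := by
  induction j with
  | zero => simp
  | succ j ih => rw [nlen_succ]; have := hℓ j; omega

theorem two_le_lvlCard (hℓ : ∀ i, 1 ≤ ℓ i) {j : ℕ} (hj : 1 ≤ j) : 2 ≤ lvlCard ℓ j := by
  have h1 : 1 ≤ nlen ℓ j := hj.trans (le_nlen hℓ j)
  calc 2 = 2 ^ 1 := by norm_num
    _ ≤ 2 ^ nlen ℓ j := Nat.pow_le_pow_right (by norm_num) h1

theorem primrec_sqrt : Primrec Nat.sqrt := by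
  refine (Primrec.nat_max.comp (fst.comp Primrec.unpair) (snd.comp Primrec.unpair)).of_eq
    fun n => ?_
  unfold Nat.unpair
  have h1 := Nat.sqrt_le_add n
  dsimp only
  split_ifs with h
  · exact max_eq_right h.le
  · push Not at h
    refine max_eq_left ?_
    change n - n.sqrt * n.sqrt - n.sqrt ≤ n.sqrt
    omega

theorem gap_sqrt_left {b g : ℕ → ℕ} (h : Gap ℓ b g) : Gap ℓ b fun j => Nat.sqrt (b j * g j) := by
  intro C
  obtain ⟨k, hk⟩ := h (2 * C)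
  refine ⟨k, fun j hj => ?_⟩
  have h1 := hk j hj
  rw [Nat.le_sqrt]
  calc b j * lvlCard ℓ j ^ C * (b j * lvlCard ℓ j ^ C)
      = b j * (b j * lvlCard ℓ j ^ (2 * C)) := by ring
    _ ≤ b j * g j := Nat.mul_le_mul_left _ h1

theorem gap_sqrt_right {b g : ℕ → ℕ} (h : Gap ℓ b g) :
    Gap ℓ (fun j => Nat.sqrt (b j * g j)) g := by
  intro C
  obtain ⟨k, hk⟩ := h (2 * C)
  refine ⟨k, fun j hj => ?_⟩
  have h1 := hk j hj
  have h2 := Nat.sqrt_le (b j * g j)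
  have h3 : (Nat.sqrt (b j * g j) * lvlCard ℓ j ^ C) * (Nat.sqrt (b j * g j) * lvlCard ℓ j ^ C) ≤
      g j * g j := by
    calc (Nat.sqrt (b j * g j) * lvlCard ℓ j ^ C) * (Nat.sqrt (b j * g j) * lvlCard ℓ j ^ C)
        = (Nat.sqrt (b j * g j) * Nat.sqrt (b j * g j)) * lvlCard ℓ j ^ (2 * C) := by ring
      _ ≤ (b j * g j) * lvlCard ℓ j ^ (2 * C) := Nat.mul_le_mul_right _ h2
      _ = (b j * lvlCard ℓ j ^ (2 * C)) * g j := by ring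
      _ ≤ g j * g j := Nat.mul_le_mul_right _ h1
  exact Nat.mul_self_le_mul_self_iff.1 h3

theorem gap_two_mul (hℓ : ∀ i, 1 ≤ ℓ i) {m g : ℕ → ℕ} (h : Gap ℓ m g) :
    Gap ℓ (fun j => 2 * m j) g := by
  intro C
  obtain ⟨k, hk⟩ := h (C + 1)
  refine ⟨max k 1, fun j hj => le_trans ?_ (hk j ((le_max_left _ _).trans hj))⟩
  have h1 := two_le_lvlCard hℓ ((le_max_right _ _).trans hj)
  calc 2 * m j * lvlCard ℓ j ^ C = (m j * lvlCard ℓ j ^ C) * 2 := by ring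
    _ ≤ (m j * lvlCard ℓ j ^ C) * lvlCard ℓ j := Nat.mul_le_mul_left _ h1
    _ = m j * lvlCard ℓ j ^ (C + 1) := by ring

theorem gap_div (hℓ : ∀ i, 1 ≤ ℓ i) {b m : ℕ → ℕ} (h : Gap ℓ b m) :
    Gap ℓ b fun j => m j / (4 * lvlCard ℓ j) := by
  intro C
  obtain ⟨k, hk⟩ := h (C + 3)
  refine ⟨max k 1, fun j hj => ?_⟩
  have h0 := hk j ((le_max_left _ _).trans hj)
  have h1 := two_le_lvlCard hℓ ((le_max_right _ _).trans hj)
  rw [Nat.le_div_iff_mul_le (by have := lvlCard_pos ℓ j; omega)]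
  refine le_trans ?_ h0
  have h2 : 4 ≤ lvlCard ℓ j * lvlCard ℓ j := by nlinarith
  calc b j * lvlCard ℓ j ^ C * (4 * lvlCard ℓ j) = (b j * lvlCard ℓ j ^ (C + 1)) * 4 := by ring
    _ ≤ (b j * lvlCard ℓ j ^ (C + 1)) * (lvlCard ℓ j * lvlCard ℓ j) := Nat.mul_le_mul_left _ h2
    _ = b j * lvlCard ℓ j ^ (C + 3) := by ring

end Pool.Agent.Lib.MP_85df58_lc
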