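import Pool.Agent.Lib.MP_85df58_lc.Init

/-!
# A generic branch
-/

namespace Pool.Agent.Lib.MP_85df58_lc

open Encodable

/-- The functional with code `e`. -/
def fnl (e : ℕ) (ρ : Node) (n : ℕ) : Part Bool :=
  ((Denumerable.ofNat Nat.Partrec.Code e).eval (encode (ρ, n))).bind fun y =>
    Part.ofOption (decode (α := Bool) y)

theorem partrec_fnl (e : ℕ) : Partrec₂ (fnl e) := by
  have h1 : Partrec fun z : Node × ℕ =>
      (Denumerable.ofNat Nat.Partrec.Code e).eval (encode z) :=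
    Nat.Partrec.Code.eval_part.comp (Computable.const _) Computable.encode
  have h2 : Partrec₂ fun (_ : Node × ℕ) (y : ℕ) => Part.ofOption (decode (α := Bool) y) :=
    (Computable.decode.comp Computable.snd).ofOption
  exact h1.bind h2

theorem exists_fnl {F : Node → ℕ → Part Bool} (hF : Partrec₂ F) : ∃ e, fnl e = F := by
  obtain ⟨c, hc⟩ := Nat.Partrec.Code.exists_code.1 hF
  refine ⟨encode c, ?_⟩
  funext ρ n
  unfold fnl
  rw [Denumerable.ofNat_encode, hc]
  ext v
  simp

theorem exists_next {ℓ : ℕ → ℕ} (hℓ : ∀ i, 1 ≤ ℓ i) (hℓc : Primrec ℓ) (p : Cond ℓ) (e : ℕ) :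
    ∃ p' : Cond ℓ, Ext p' p ∧ p.σ.length < p'.σ.length ∧
      (MonoN (fnl e) → ∀ x, IsBranch x → Meets p' x → Decided (fnl e) x) := by
  obtain ⟨q, hq, hq'⟩ : ∃ q : Cond ℓ, Ext q p ∧
      (MonoN (fnl e) → ∀ x, IsBranch x → Meets q x → Decided (fnl e) x) := by
    by_cases h : MonoN (fnl e)
    · obtain ⟨q, h1, h2⟩ := exists_decided hℓ hℓc p (partrec_fnl e) h
      exact ⟨q, h1, fun _ => h2⟩
    · exact ⟨p, Ext.refl p, fun h' => absurd h' h⟩
  obtain ⟨r, hr, -, -, -, -, hl⟩ := q.exists_step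
  refine ⟨r, hr.trans hq, ?_, fun h x hx hm => hq' h x hx (Meets.of_ext hr hx hm)⟩
  have := hq.stem.length_le
  omega

theorem Cond.down_suffix {ℓ : ℕ → ℕ} (p : Cond ℓ) {ν μ : Node} (h : ν <:+ μ) (hσ : p.σ <:+ ν)
    (hμ : μ ∈ p.T) : ν ∈ p.T := by
  obtain ⟨t, rfl⟩ := h
  induction t with
  | nil => exact hμ
  | cons a t ih => exact ih (p.down a _ hμ (hσ.trans (List.suffix_append _ _)))

theorem exists_branch {ℓ : ℕ → ℕ} (hℓ : ∀ i, 1 ≤ ℓ i) (hℓc : Primrec ℓ) (p₀ : Cond ℓ) :
    ∃ x, IsBranch x ∧ Meets p₀ x ∧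
      ∀ F : Node → ℕ → Part Bool, Partrec₂ F → MonoN F → Decided F x := by
  choose nxt h1 h2 h3 using fun (p : Cond ℓ) (e : ℕ) => exists_next hℓ hℓc p e
  let s : ℕ → Cond ℓ := fun n => n.rec p₀ fun e p => nxt p e
  have hs : ∀ e, s (e + 1) = nxt (s e) e := fun _ => rfl
  have hext : ∀ i k, i ≤ k → Ext (s k) (s i) := by
    intro i k hik
    induction k, hik using Nat.le_induction with
    | base => exact Ext.refl _
    | succ k _ ih => rw [hs]; exact (h1 _ _).trans ih
  have hlen : ∀ e, e ≤ (s e).σ.length := by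
    intro e
    induction e with
    | zero => exact Nat.zero_le _
    | succ e ih =>
      rw [hs]
      have := h2 (s e) e
      omega
  let x : ℕ → Node := fun k => (s k).σ.drop ((s k).σ.length - k)
  have hxl : ∀ k, (x k).length = k := by
    intro k
    have := hlen k
    simp only [x, List.length_drop]
    omega
  have hxs : ∀ k i, k ≤ i → x k <:+ (s i).σ := fun k i hki =>
    (List.drop_suffix _ _).trans (hext k i hki).stem
  have hx : IsBranch x := by
    refine ⟨List.length_eq_zero_iff.1 (hxl 0), fun k => ?_⟩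
    obtain ⟨a, ν, ha⟩ : ∃ a ν, x (k + 1) = a :: ν := by
      cases hc : x (k + 1) with
      | nil =>
        have := hxl (k + 1)
        rw [hc] at this
        simp at this
      | cons a ν => exact ⟨a, ν, rfl⟩
    refine ⟨a, ?_⟩
    rw [ha]
    congr 1
    refine suffix_eq_of_length (ρ := (s (k + 1)).σ) ?_ (hxs k (k + 1) (by omega)) ?_
    · have h4 := hxs (k + 1) (k + 1) le_rfl
      rw [ha] at h4
      exact (List.suffix_cons a ν).trans h4
    · have h4 := hxl (k + 1)
      rw [ha, List.length_cons] at h4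
      rw [hxl k]
      omega
  have hmeet : ∀ i, Meets (s i) x := by
    intro i
    have hst : x (s i).σ.length = (s i).σ :=
      suffix_eq_of_length (ρ := (s (s i).σ.length).σ) (hxs _ _ le_rfl) (hext _ _ (hlen i)).stem
        (hxl _)
    refine ⟨hst, fun k hk => ?_⟩
    have hik : i ≤ k := (hlen i).trans hk
    have hE := hext i k hik
    have h4 : (s k).σ ∈ (s i).T := hE.sub _ (s k).mem (List.suffix_refl _)
    have h5 : (s i).σ <:+ x k := by
      conv_lhs => rw [← hst]
      exact hx.suffix hk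
    refine ⟨(s i).down_suffix (hxs k k le_rfl) h5 h4, fun hB => ?_⟩
    have h6 : (s k).σ ∈ (s i).B := up_suffix (s i).up (hxs k k le_rfl) hB
    exact (s k).stem_notMem (hE.bad _ (s k).mem (List.suffix_refl _) h6)
  refine ⟨x, hx, hmeet 0, fun F hF hFm => ?_⟩
  obtain ⟨e, rfl⟩ := exists_fnl hF
  exact h3 (s e) e hFm x hx (hmeet (e + 1))

end Pool.Agent.Lib.MP_85df58_lc
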