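import Pool.Agent.Lib.MP_85df58_lc.Density

/-!
# The initial condition
-/

namespace Pool.Agent.Lib.MP_85df58_lc

open Primrec Encodable

/-- Length of block number `j`. -/
def len (j : ℕ) : ℕ := 2 ^ ((j + 2) ^ 2)

/-- Programs shorter than `qlen j` are taken into account at level `j`. -/
def qlen (j : ℕ) : ℕ := 2 ^ ((j + 1) ^ 2 - 2)

/-- The threshold for smallness of the initial condition. -/
def thr0 (j : ℕ) : ℕ := 2 ^ 2 ^ ((j + 2) ^ 2 - 1)

/-- The number of children in the initial tree. -/
def deg0 (j : ℕ) : ℕ := 2 ^ len j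

theorem primrec_two_pow : Primrec fun n : ℕ => 2 ^ n := by
  refine (Primrec.nat_rec₁ (f := fun _ IH => IH * 2) 1
    (Primrec.nat_mul.comp snd (Primrec.const 2))).of_eq fun n => ?_
  induction n with
  | zero => rfl
  | succ n ih => rw [pow_succ, ← ih]

theorem primrec_sq {f : ℕ → ℕ} (hf : Primrec f) : Primrec fun n => f n ^ 2 :=
  (Primrec.nat_mul.comp hf hf).of_eq fun _ => (sq _).symm

theorem primrec_add_const (c : ℕ) : Primrec fun n : ℕ => n + c :=
  Primrec.nat_add.comp Primrec.id (Primrec.const c)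

theorem primrec_len : Primrec len :=
  primrec_two_pow.comp (primrec_sq (primrec_add_const 2))

theorem primrec_qlen : Primrec qlen :=
  primrec_two_pow.comp (Primrec.nat_sub.comp (primrec_sq (primrec_add_const 1)) (Primrec.const 2))

theorem primrec_thr0 : Primrec thr0 :=
  primrec_two_pow.comp (primrec_two_pow.comp
    (Primrec.nat_sub.comp (primrec_sq (primrec_add_const 2)) (Primrec.const 1)))

theorem primrec_deg0 : Primrec deg0 := primrec_two_pow.comp primrec_len

theorem one_le_len (j : ℕ) : 1 ≤ len j := Nat.one_le_two_pow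

theorem sq_succ (j : ℕ) : (j + 2) ^ 2 = (j + 1) ^ 2 + (2 * j + 3) := by ring

theorem nlen_len_le (j : ℕ) : nlen len j ≤ 2 ^ ((j + 1) ^ 2 + 1) := by
  induction j with
  | zero => simp [nlen]
  | succ j ih =>
    rw [nlen_succ]
    have h1 : 2 ^ ((j + 1) ^ 2 + 1) ≤ 2 ^ ((j + 2) ^ 2) :=
      Nat.pow_le_pow_right (by norm_num) (by rw [sq_succ]; omega)
    calc nlen len j + len j ≤ 2 ^ ((j + 2) ^ 2) + 2 ^ ((j + 2) ^ 2) :=
          Nat.add_le_add (ih.trans h1) le_rfl
      _ = 2 ^ ((j + 1 + 1) ^ 2 + 1) := by ring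

theorem two_mul_pow (j : ℕ) : 2 ^ ((j + 2) ^ 2 - 1) + 2 ^ ((j + 2) ^ 2 - 1) = len j := by
  have h1 : (j + 2) ^ 2 - 1 + 1 = (j + 2) ^ 2 := Nat.sub_add_cancel (by rw [sq_succ]; omega)
  rw [len, ← h1, pow_succ]
  simp only [Nat.add_sub_cancel]
  ring

theorem gap_init : Gap len thr0 deg0 := by
  intro C
  refine ⟨C, fun j hj => ?_⟩
  rw [thr0, deg0, lvlCard, ← pow_mul, ← pow_add]
  refine Nat.pow_le_pow_right (by norm_num) ?_
  rw [← two_mul_pow]
  refine Nat.add_le_add_left ?_ _
  have h1 : C ≤ 2 ^ j := hj.trans (Nat.lt_two_pow_self).le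
  calc nlen len j * C ≤ 2 ^ ((j + 1) ^ 2 + 1) * 2 ^ j := Nat.mul_le_mul (nlen_len_le j) h1
    _ = 2 ^ ((j + 1) ^ 2 + 1 + j) := by rw [← pow_add]
    _ ≤ 2 ^ ((j + 2) ^ 2 - 1) := Nat.pow_le_pow_right (by norm_num) (by
        rw [sq_succ]
        omega)

theorem lvl_init (j : ℕ) : 1 ≤ thr0 j ∧ thr0 j ≤ deg0 j := by
  refine ⟨Nat.one_le_two_pow, Nat.pow_le_pow_right (by norm_num) ?_⟩
  rw [← two_mul_pow]
  exact Nat.le_add_left _ _

/-- The strings with a short description. -/
def Bad : Set Node := {ρ | Valid len ρ ∧ ∃ e < ρ.length, ∃ p : List Bool,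
  p.length < qlen ρ.length ∧ ∃ t : List Bool,
    encode (bits ρ ++ t) ∈ (Denumerable.ofNat Nat.Partrec.Code e).eval (encode p)}

/-- The extensions of the strings in `Bad`. -/
def Up : Set Node := {ρ | ∃ μ, μ <:+ ρ ∧ μ ∈ Bad}

theorem ce_bad : CE fun ρ => ρ ∈ Bad := by
  have h1 : CE fun z : ((Node × ℕ) × List Bool) × List Bool =>
      encode (bits z.1.1.1 ++ z.2) ∈
        (Denumerable.ofNat Nat.Partrec.Code z.1.1.2).eval (encode z.1.2) := by
    have g : CE fun x : (Nat.Partrec.Code × ℕ) × ℕ => x.2 ∈ x.1.1.eval x.1.2 :=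
      CE.graph (f := fun y : Nat.Partrec.Code × ℕ => y.1.eval y.2) Nat.Partrec.Code.eval_part
    refine g.comp (f := fun z : ((Node × ℕ) × List Bool) × List Bool =>
      ((Denumerable.ofNat Nat.Partrec.Code z.1.1.2, encode z.1.2), encode (bits z.1.1.1 ++ z.2)))
      ?_
    refine Primrec.pair (Primrec.pair ?_ ?_) ?_
    · exact (Primrec.ofNat Nat.Partrec.Code).comp (snd.comp (fst.comp fst))
    · exact Primrec.encode.comp (snd.comp fst)
    · exact Primrec.encode.comp
        (list_append.comp (primrec_bits.comp (fst.comp (fst.comp fst))) snd)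
  have h2 : CE fun z : (Node × ℕ) × List Bool => z.2.length < qlen z.1.1.length :=
    CE.of_primrec (Primrec.nat_lt.comp (list_length.comp snd)
      (primrec_qlen.comp (list_length.comp (fst.comp fst))))
  have h3 : CE fun z : Node × ℕ => z.2 < z.1.length :=
    CE.of_primrec (Primrec.nat_lt.comp snd (list_length.comp fst))
  have h4 : CE fun z : Node => Valid len z := CE.of_primrec (primrec_valid primrec_len)
  exact h4.and (h3.and (h2.and h1.exists).exists).exists

theorem ce_up : CE fun ρ => ρ ∈ Up := by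
  have h1 : CE fun z : (Node × Node) × Node => z.2 ++ z.1.2 = z.1.1 :=
    CE.of_primrec (Primrec.eq.comp (list_append.comp snd (snd.comp fst)) (fst.comp fst))
  have h2 : CE fun z : Node × Node => z.2 ∈ Bad := ce_bad.comp snd
  exact (h1.exists.and h2).exists

theorem up_cons (a : List Bool) (ν : Node) (h : ν ∈ Up) : a :: ν ∈ Up := by
  obtain ⟨μ, h1, h2⟩ := h
  exact ⟨μ, h1.trans (List.suffix_cons _ _), h2⟩

/-- The binary strings shorter than `n`. -/
def shortLists (n : ℕ) : Finset (List Bool) := (Finset.range n).biUnion boolLists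

theorem mem_shortLists {n : ℕ} {l : List Bool} : l ∈ shortLists n ↔ l.length < n := by
  simp [shortLists, mem_boolLists]

theorem card_shortLists (n : ℕ) : (shortLists n).card < 2 ^ n := by
  refine lt_of_le_of_lt Finset.card_biUnion_le ?_
  simp only [card_boolLists]
  induction n with
  | zero => simp
  | succ n ih => rw [Finset.sum_range_succ, pow_succ]; omega

theorem not_big_init {ν : Node} (h : ν ∉ Up) : ¬ Big thr0 (Up ∩ {ρ | Valid len ρ}) ν := by
  classical
  intro hb
  induction hb with
  | base h' => exact h h'.1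
  | @step ν C hC hk ih =>
    have hbad : ∀ a ∈ C, a :: ν ∈ Bad := by
      intro a ha
      have h1 : a :: ν ∈ Up := by
        by_contra h1
        exact ih a ha h1
      obtain ⟨μ, h2, h3⟩ := h1
      rcases List.suffix_cons_iff.1 h2 with rfl | h4
      · exact h3
      · exact absurd ⟨μ, h4, h3⟩ h
    choose! hval e he p hp t ht using hbad
    have hcard : C.card ≤ (Finset.range (ν.length + 1) ×ˢ
        shortLists (qlen (ν.length + 1))).card := by
      refine Finset.card_le_card_of_injOn (fun a => (e a, p a)) ?_ ?_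
      · intro a ha
        have ha' : a ∈ C := ha
        refine Finset.mem_coe.2 (Finset.mem_product.2 ⟨?_, ?_⟩)
        · exact Finset.mem_range.2 (by simpa using he a ha')
        · exact mem_shortLists.2 (by simpa using hp a ha')
      · intro a ha a' ha' hE
        have h0 : e a = e a' ∧ p a = p a' := by simpa using hE
        have h1 := ht a ha
        have h2 := ht a' ha'
        rw [← h0.1, ← h0.2] at h2
        have h3 := encode_injective (Part.mem_unique h1 h2)
        have h4 := List.append_inj h3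
          (by rw [bits_length (hval a ha), bits_length (hval a' ha')]; rfl)
        have h5 := bits_inj (hval a ha) (hval a' ha') rfl h4.1
        exact (List.cons.inj h5).1
    rw [Finset.card_product, Finset.card_range] at hcard
    have h1 : thr0 ν.length ≤ (ν.length + 1) * (shortLists (qlen (ν.length + 1))).card :=
      hC.trans hcard
    have h2 : thr0 ν.length = 2 ^ qlen (ν.length + 1) * 2 ^ qlen (ν.length + 1) := by
      rw [← pow_add, thr0, qlen]
      congr 1
      have h3 : (ν.length + 2) ^ 2 - 1 = (ν.length + 1 + 1) ^ 2 - 2 + 1 := by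
        have : 4 ≤ (ν.length + 2) ^ 2 :=
          calc 4 = 2 ^ 2 := by norm_num
            _ ≤ (ν.length + 2) ^ 2 := Nat.pow_le_pow_left (by omega) 2
        have h5 : (ν.length + 1 + 1) ^ 2 = (ν.length + 2) ^ 2 := by ring
        omega
      rw [h3, pow_succ]
      ring
    have h3 : ν.length + 1 ≤ 2 ^ qlen (ν.length + 1) := by
      have h4 : ν.length < 2 ^ ν.length := Nat.lt_two_pow_self
      have h5 : ν.length ≤ qlen (ν.length + 1) := by
        refine h4.le.trans (Nat.pow_le_pow_right (by norm_num) ?_)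
        have : ν.length + 2 ≤ (ν.length + 1 + 1) ^ 2 := Nat.le_self_pow (by norm_num) _
        omega
      exact h4.trans_le (Nat.pow_le_pow_right (by norm_num) h5)
    have h4 := card_shortLists (qlen (ν.length + 1))
    have h5 : (ν.length + 1) * (shortLists (qlen (ν.length + 1))).card <
        2 ^ qlen (ν.length + 1) * 2 ^ qlen (ν.length + 1) :=
      Nat.mul_lt_mul_of_le_of_lt h3 h4 (by positivity)
    omega

theorem nil_notMem_up : ([] : Node) ∉ Up := by
  rintro ⟨μ, h1, h2⟩
  have h3 : μ = [] := List.suffix_nil.1 h1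
  subst h3
  obtain ⟨-, e, he, -⟩ := h2
  simp at he

theorem exists_init : ∃ p : Cond len, p.σ = [] ∧ p.B = Up := by
  refine ⟨{ σ := [], T := {ρ | Valid len ρ}, B := Up, g := deg0, b := thr0,
            ceT := CE.of_primrec (primrec_valid primrec_len), ceB := ce_up,
            cg := primrec_deg0.to_comp, cb := primrec_thr0.to_comp, mem := trivial,
            valid := fun ν hν => hν, down := fun a ν h _ => h.2, up := up_cons,
            bushy := ?_, small := not_big_init nil_notMem_up, lvl := fun j _ => lvl_init j,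
            gap := gap_init }, rfl, rfl⟩
  intro ν hν _
  refine .inr ⟨boolLists (len ν.length), ?_, fun a ha => ?_⟩
  · rw [card_boolLists]
    exact le_rfl
  · exact ⟨mem_boolLists.1 ha, hν⟩

end Pool.Agent.Lib.MP_85df58_lc
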