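import Pool.Agent.Lib.MP_85df58_lc.Generic

/-!
# Generic branches have minimal degree
-/

namespace Pool.Agent.Lib.MP_85df58_lc

open Encodable

theorem real_pre {ℓ : ℕ → ℕ} (hℓ : ∀ i, 1 ≤ ℓ i) {x : ℕ → Node} (hx : IsBranch x)
    (hv : ∀ k, Valid ℓ (x k)) (j : ℕ) : pre (real x) (nlen ℓ j) = bits (x j) := by
  have hbl : ∀ k, (bits (x k)).length = nlen ℓ k := fun k => by
    rw [bits_length (hv k), hx.length]
  refine List.ext_getElem (by rw [pre_length, hbl]) fun i h1 h2 => ?_
  have h3 : i < (bits (x (i + 1))).length := by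
    rw [hbl]
    exact le_nlen hℓ (i + 1)
  have h4 : (pre (real x) (nlen ℓ j))[i] = (bits (x (i + 1))).getD i false := by
    simp [pre, real]
  rw [h4]
  rcases le_total (i + 1) j with h | h
  · obtain ⟨t, ht⟩ := bits_isPrefix (hx.suffix h)
    rw [List.getD_eq_getElem _ _ h3]
    simp only [← ht]
    rw [List.getElem_append_left h3]
  · obtain ⟨t, ht⟩ := bits_isPrefix (hx.suffix h)
    rw [← ht, List.getD_append _ _ _ _ h2, List.getD_eq_getElem _ _ h2]

theorem minimal_of_decided {ℓ : ℕ → ℕ} (hℓ : ∀ i, 1 ≤ ℓ i) {x : ℕ → Node} (hx : IsBranch x)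
    (hv : ∀ k, Valid ℓ (x k))
    (hd : ∀ F : Node → ℕ → Part Bool, Partrec₂ F → MonoN F → Decided F x) {B : ℕ → Bool}
    (hB : TuringReducible (chi B) (chi (real x))) :
    Computable B ∨ TuringEquivalent (chi B) (chi (real x)) := by
  obtain ⟨F, hF, hFm, hFv⟩ := exists_functional _ (RecursiveIn.iff_nat.1 hB)
  let G : Node → ℕ → Part Bool := fun ρ n => (F (bits ρ) n).map fun v => decide (v = 1)
  have hG : Partrec₂ G := by
    have h1 : Partrec fun z : Node × ℕ => F (bits z.1) z.2 :=
      hF.comp (primrec_bits.to_comp.comp Computable.fst) Computable.snd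
    exact h1.map ((Primrec.eq.decide.comp Primrec.snd (Primrec.const 1)).to_comp)
  have hGm : MonoN G := by
    intro ρ ρ' n v hs hv
    obtain ⟨w, hw, rfl⟩ := (Part.mem_map_iff _).1 hv
    exact (Part.mem_map_iff _).2 ⟨w, hFm _ _ _ _ (bits_isPrefix hs) hw, rfl⟩
  have hval : ∀ n, ∃ k, B n ∈ G (x k) n := by
    intro n
    obtain ⟨k, hk⟩ := (hFv n _).1 (Part.mem_some _ : (B n).toNat ∈ chi B n)
    refine ⟨k, ?_⟩
    have h1 : pre (real x) k <+: bits (x k) := by
      rw [← real_pre hℓ hx hv]
      exact pre_mono _ (le_nlen hℓ k)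
    refine (Part.mem_map_iff _).2 ⟨_, hFm _ _ _ _ h1 hk, ?_⟩
    cases B n <;> simp
  rcases hd G hG hGm with ⟨n, hn⟩ | ⟨X, hX, h⟩ | ⟨H, hH, h, hh, hr⟩
  · obtain ⟨k, hk⟩ := hval n
    exact absurd (Part.dom_iff_mem.2 ⟨_, hk⟩) (hn k)
  · left
    have h1 : B = X := funext fun n => by
      obtain ⟨k, hk⟩ := hval n
      exact h k n _ hk
    rw [h1]
    exact hX
  · exact .inr ⟨hB, reduce hH hh (hr B hval)⟩

/-- There is a sequence of minimal degree all of whose initial segments of length `nlen len j`
have no description shorter than `qlen j`, for any computable description method and all large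
`j`. -/
theorem exists_minimal : ∃ A : ℕ → Bool, MinimalDegree A ∧
    ∀ V : List Bool →. List Bool, Partrec V → ∃ j₀, ∀ j, j₀ ≤ j → ∀ p y, y ∈ V p →
      pre A (nlen len j) <+: y → qlen j ≤ p.length := by
  obtain ⟨p₀, hσ, hB⟩ := exists_init
  obtain ⟨x, hx, hm, hd⟩ := exists_branch one_le_len primrec_len p₀
  have hv : ∀ k, Valid len (x k) := fun k => p₀.valid _ (hm.mem k (by rw [hσ]; simp)).1
  have hbad : ∀ k, x k ∉ Bad := by
    intro k hk
    refine (hm.mem k (by rw [hσ]; simp)).2 ?_
    rw [hB]
    exact ⟨x k, List.suffix_refl _, hk⟩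
  have hcomp : ∀ V : List Bool →. List Bool, Partrec V → ∃ j₀, ∀ j, j₀ ≤ j → ∀ p y, y ∈ V p →
      pre (real x) (nlen len j) <+: y → qlen j ≤ p.length := by
    intro V hV
    obtain ⟨c, hc⟩ := Nat.Partrec.Code.exists_code.1 hV
    refine ⟨encode c + 1, fun j hj p y hy hpre => ?_⟩
    by_contra hlt
    push Not at hlt
    rw [real_pre one_le_len hx hv] at hpre
    obtain ⟨t, ht⟩ := hpre
    refine hbad j ⟨hv j, encode c, by rw [hx.length]; omega, p, by rw [hx.length]; exact hlt, t, ?_⟩
    rw [Denumerable.ofNat_encode, hc, ht]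
    simpa using hy
  refine ⟨real x, ⟨fun hA => ?_, fun B hB => minimal_of_decided one_le_len hx hv hd hB⟩, hcomp⟩
  -- if `A` were computable then its initial segments would have short descriptions
  have h1 : Computable fun p : List Bool => pre (real x) (nlen len p.length) := by
    have h2 : Computable (nlen len) := by
      have h3 : Primrec (nlen len) := by
        refine (Primrec.nat_rec₁ (f := fun y IH => IH + len y) 0
          (Primrec.nat_add.comp Primrec.snd (primrec_len.comp Primrec.fst))).of_eq fun n => ?_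
        induction n with
        | zero => simp [nlen]
        | succ n ih => rw [nlen_succ, ← ih]
      exact h3.to_comp
    have h4 : Computable (pre (real x)) := by
      refine (Computable.nat_rec (f := fun n : ℕ => n) (g := fun _ => ([] : List Bool))
        (h := fun _ y => y.2 ++ [real x y.1]) Computable.id (Computable.const _) ?_).of_eq
        fun n => ?_
      · have h5 : Computable fun z : ℕ × (ℕ × List Bool) => [real x z.2.1] :=
          Primrec.list_cons.to_comp.comp (hA.comp (Computable.fst.comp Computable.snd))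
            (Computable.const [])
        exact Primrec.list_append.to_comp.comp (Computable.snd.comp Computable.snd) h5
      · induction n with
        | zero => rfl
        | succ n ih =>
          rw [pre, List.range_succ, List.map_append, List.map_cons, List.map_nil, ← pre, ← ih]
    exact h4.comp (h2.comp Primrec.list_length.to_comp)
  obtain ⟨j₀, hj₀⟩ := hcomp (fun p => Part.some (pre (real x) (nlen len p.length))) h1
  have h4 := hj₀ j₀ le_rfl (List.replicate j₀ true) _ (Part.mem_some _)
    (by rw [List.length_replicate])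
  rw [List.length_replicate] at h4
  have h5 : j₀ < qlen j₀ := by
    refine Nat.lt_two_pow_self.trans_le (Nat.pow_le_pow_right (by norm_num) ?_)
    rcases Nat.eq_zero_or_pos j₀ with h | h
    · omega
    · have h6 : (j₀ + 1) ^ 2 = j₀ ^ 2 + 2 * j₀ + 1 := by ring
      rw [h6]
      omega
  omega

end Pool.Agent.Lib.MP_85df58_lc
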