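import Pool.Agent.Lib.MP_85df58_lc.Gap

/-!
# Strings of blocks
-/

namespace Pool.Agent.Lib.MP_85df58_lc

open Primrec

/-- Strings of blocks, in reversed order. -/
abbrev Node : Type := List (List Bool)

/-- Block number `i` has length `ℓ i`. -/
def Valid (ℓ : ℕ → ℕ) : Node → Prop
  | [] => True
  | a :: ν => a.length = ℓ ν.length ∧ Valid ℓ ν

/-- The binary string obtained by joining the blocks. -/
def bits : Node → List Bool
  | [] => []
  | a :: ν => bits ν ++ a

theorem bits_eq (ν : Node) : bits ν = ν.reverse.flatten := by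
  induction ν with
  | nil => rfl
  | cons a ν ih => simp [bits, ih]

theorem primrec_bits : Primrec bits :=
  (list_flatten.comp list_reverse).of_eq fun ν => (bits_eq ν).symm

variable {ℓ : ℕ → ℕ}

theorem bits_length {ν : Node} (h : Valid ℓ ν) : (bits ν).length = nlen ℓ ν.length := by
  induction ν with
  | nil => simp [bits, nlen]
  | cons a ν ih =>
    obtain ⟨h1, h2⟩ := h
    rw [bits, List.length_append, ih h2, h1, List.length_cons, nlen_succ]

theorem Valid.suffix {ν μ : Node} (h : Valid ℓ μ) (hν : ν <:+ μ) : Valid ℓ ν := by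
  induction μ with
  | nil => rw [List.suffix_nil] at hν; rw [hν]; exact h
  | cons a μ ih =>
    rcases List.suffix_cons_iff.1 hν with rfl | h1
    · exact h
    · exact ih h.2 h1

theorem bits_isPrefix {ν μ : Node} (h : ν <:+ μ) : bits ν <+: bits μ := by
  obtain ⟨t, rfl⟩ := h
  induction t with
  | nil => exact List.prefix_rfl
  | cons a t ih => exact ih.trans (by simp [bits])

theorem bits_inj {ν μ : Node} (hν : Valid ℓ ν) (hμ : Valid ℓ μ) (hl : ν.length = μ.length)
    (h : bits ν = bits μ) : ν = μ := by
  induction ν generalizing μ with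
  | nil =>
    symm
    apply List.length_eq_zero_iff.1
    simpa using hl.symm
  | cons a ν ih =>
    cases μ with
    | nil => simp at hl
    | cons b μ =>
      obtain ⟨ha, hν⟩ := hν
      obtain ⟨hb, hμ⟩ := hμ
      simp only [List.length_cons, add_left_inj] at hl
      have h1 : (bits ν).length = (bits μ).length := by
        rw [bits_length hν, bits_length hμ, hl]
      simp only [bits] at h
      obtain ⟨h2, h3⟩ := List.append_inj h h1
      rw [ih hν hμ hl h2, h3]

/-- All binary strings of length `n`. -/
def boolLists (n : ℕ) : Finset (List Bool) :=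
  (Finset.univ : Finset (Fin n → Bool)).image List.ofFn

theorem mem_boolLists {n : ℕ} {l : List Bool} : l ∈ boolLists n ↔ l.length = n := by
  unfold boolLists
  simp only [Finset.mem_image, Finset.mem_univ, true_and]
  constructor
  · rintro ⟨f, rfl⟩
    simp
  · rintro rfl
    exact ⟨l.get, by simp⟩

theorem card_boolLists (n : ℕ) : (boolLists n).card = 2 ^ n := by
  unfold boolLists
  rw [Finset.card_image_of_injective _ List.ofFn_injective]
  simp

theorem card_le_lvlCard {M : Finset Node} {J : ℕ} (h : ∀ ν ∈ M, Valid ℓ ν ∧ ν.length = J) :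
    M.card ≤ lvlCard ℓ J := by
  rw [lvlCard, ← card_boolLists]
  refine Finset.card_le_card_of_injOn bits ?_ ?_
  · intro ν hν
    obtain ⟨h1, h2⟩ := h ν hν
    rw [Finset.mem_coe, mem_boolLists, bits_length h1, h2]
  · intro ν hν μ hμ hb
    obtain ⟨h1, h2⟩ := h ν hν
    obtain ⟨h3, h4⟩ := h μ hμ
    exact bits_inj h1 h3 (h2.trans h4.symm) hb

theorem primrec_valid (hℓ : Primrec ℓ) : PrimrecPred (Valid ℓ) := by
  classical
  let g : Node → Bool × ℕ := fun ν =>
    ν.foldr (fun a p => (p.1 && decide (a.length = ℓ p.2), p.2 + 1)) (true, 0)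
  have hg : Primrec g := by
    have h0 : Primrec₂ fun (_ : Node) (x : List Bool × (Bool × ℕ)) =>
        ((x.2.1 && decide (x.1.length = ℓ x.2.2), x.2.2 + 1) : Bool × ℕ) := by
      refine Primrec.pair ?_ (Primrec.succ.comp (snd.comp (snd.comp snd)))
      refine Primrec.and.comp (fst.comp (snd.comp snd)) ?_
      exact Primrec.eq.decide.comp (list_length.comp (fst.comp snd))
        (hℓ.comp (snd.comp (snd.comp snd)))
    exact Primrec.list_foldr (f := fun ν : Node => ν) (g := fun _ => ((true, 0) : Bool × ℕ))
      Primrec.id (Primrec.const _) h0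
  have h1 : ∀ ν, (g ν).2 = ν.length ∧ ((g ν).1 = true ↔ Valid ℓ ν) := by
    intro ν
    induction ν with
    | nil => simp [g, Valid]
    | cons a ν ih =>
      obtain ⟨ih1, ih2⟩ := ih
      refine ⟨?_, ?_⟩
      · change (g ν).2 + 1 = _
        rw [ih1]
        rfl
      · change ((g ν).1 && decide (a.length = ℓ (g ν).2)) = true ↔ _
        rw [ih1, Bool.and_eq_true, ih2, decide_eq_true_iff, and_comm]
        rfl
  refine (Primrec.eq.comp (fst.comp hg) (Primrec.const true)).of_eq fun ν => (h1 ν).2

end Pool.Agent.Lib.MP_85df58_lc
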