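import Mathlib

/-!
# The value partition lemma

Given finitely many subadditive capacities on a finite set of values, none of which is
concentrated on few values, the values can be distributed among the capacities so that each gets
a non-negligible share.
-/

namespace Pool.Agent.Lib.MP_85df58_lc

variable {ι V : Type*} [DecidableEq ι] [DecidableEq V]

theorem partition_noAtoms (G : ι → ℕ → Finset V → Prop)
    (hanti : ∀ i s t A, s ≤ t → G i t A → G i s A)
    (hsub : ∀ i s t A B, G i (s + t) (A ∪ B) → G i s A ∨ G i t B) :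
    ∀ (n : ℕ) (I : Finset ι) (W : Finset V), I.card = n → (∀ i ∈ I, ∀ v ∈ W, ¬ G i 1 {v}) →
      (∀ i ∈ I, G i (2 * n) W) →
      ∃ A : ι → Finset V, (∀ i ∈ I, A i ⊆ W ∧ G i 1 (A i)) ∧
        ∀ i ∈ I, ∀ j ∈ I, i ≠ j → Disjoint (A i) (A j) := by
  intro n
  induction n with
  | zero =>
    intro I W hI _ _
    rw [Finset.card_eq_zero] at hI
    subst hI
    exact ⟨fun _ => ∅, by simp, by simp⟩
  | succ n ih =>
    intro I W hI hno hW
    have hne : I.Nonempty := Finset.card_pos.1 (by omega)
    obtain ⟨i₀, hi₀⟩ := hne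
    -- a minimal set with some nonnegligible capacity
    have hex : ∃ m, ∃ A ⊆ W, A.card = m ∧ ∃ i ∈ I, G i 1 A :=
      ⟨_, W, subset_rfl, rfl, i₀, hi₀, hanti _ _ _ _ (by omega) (hW _ hi₀)⟩
    classical
    obtain ⟨A, hAW, hAcard, i, hi, hiA⟩ := Nat.find_spec hex
    have hmin : ∀ B ⊆ W, B.card < A.card → ∀ j ∈ I, ¬ G j 1 B := by
      intro B hB hlt j hj hG
      exact Nat.find_min hex (by rw [← hAcard]; exact hlt) ⟨B, hB, rfl, j, hj, hG⟩
    have hrest : ∀ j ∈ I.erase i, G j (2 * n) (W \ A) := by
      intro j hj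
      obtain ⟨hji, hj⟩ := Finset.mem_erase.1 hj
      rcases A.eq_empty_or_nonempty with rfl | ⟨v, hv⟩
      · rw [Finset.sdiff_empty]
        exact hanti _ _ _ _ (by omega) (hW _ hj)
      · have h1 : G j (2 + 2 * n) (A ∪ (W \ A)) := by
          rw [Finset.union_sdiff_of_subset hAW]
          exact hanti _ _ _ _ (by omega) (hW _ hj)
        refine (hsub _ _ _ _ _ h1).resolve_left fun h2 => ?_
        have h3 : G j (1 + 1) (A.erase v ∪ {v}) := by
          have : A.erase v ∪ {v} = A := by
            ext w
            simp only [Finset.mem_union, Finset.mem_erase, Finset.mem_singleton]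
            by_cases hwv : w = v
            · simp [hwv, hv]
            · simp [hwv]
          rw [this]
          exact h2
        rcases hsub _ _ _ _ _ h3 with h4 | h4
        · exact hmin _ ((Finset.erase_subset _ _).trans hAW) (Finset.card_erase_lt_of_mem hv) _ hj h4
        · exact hno _ hj _ (hAW hv) h4
    obtain ⟨A', hA', hdis⟩ := ih (I.erase i) (W \ A)
      (by rw [Finset.card_erase_of_mem hi]; omega)
      (fun j hj v hv => hno j (Finset.mem_of_mem_erase hj) v (Finset.mem_sdiff.1 hv).1) hrest
    refine ⟨fun j => if j = i then A else A' j, ?_, ?_⟩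
    · intro j hj
      by_cases hji : j = i
      · subst hji
        simp only [if_true]
        exact ⟨hAW, hiA⟩
      · simp only [hji, if_false]
        obtain ⟨h1, h2⟩ := hA' j (Finset.mem_erase.2 ⟨hji, hj⟩)
        exact ⟨h1.trans Finset.sdiff_subset, h2⟩
    · have key : ∀ j ∈ I, j ≠ i → Disjoint (A' j) A := by
        intro j hj hji
        obtain ⟨h1, -⟩ := hA' j (Finset.mem_erase.2 ⟨hji, hj⟩)
        exact Finset.disjoint_of_subset_left h1 Finset.sdiff_disjoint
      intro j hj k hk hjk
      by_cases hji : j = i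
      · subst hji
        have hkj : k ≠ j := fun h => hjk h.symm
        simp only [if_true, hkj, if_false]
        exact (key k hk hkj).symm
      · by_cases hki : k = i
        · subst hki
          simp only [hji, if_false, if_true]
          exact key j hj hji
        · simp only [hji, hki, if_false]
          exact hdis j (Finset.mem_erase.2 ⟨hji, hj⟩) k (Finset.mem_erase.2 ⟨hki, hk⟩) hjk

theorem partition (G : ι → ℕ → Finset V → Prop)
    (hanti : ∀ i s t A, s ≤ t → G i t A → G i s A)
    (hsub : ∀ i s t A B, G i (s + t) (A ∪ B) → G i s A ∨ G i t B) (U : Finset V) (N : ℕ) :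
    ∀ (n : ℕ) (I : Finset ι) (R : Finset V), I.card = n → R ⊆ U → R.card + n ≤ N →
      (∀ i ∈ I, ∀ R' ⊆ U, R'.card ≤ N → G i (2 * N) (U \ R')) →
      ∃ A : ι → Finset V, (∀ i ∈ I, A i ⊆ U \ R ∧ G i 1 (A i)) ∧
        ∀ i ∈ I, ∀ j ∈ I, i ≠ j → Disjoint (A i) (A j) := by
  intro n
  induction n with
  | zero =>
    intro I R hI _ _ _
    rw [Finset.card_eq_zero] at hI
    subst hI
    exact ⟨fun _ => ∅, by simp, by simp⟩
  | succ n ih =>
    intro I R hI hR hRn h
    by_cases hat : ∃ i ∈ I, ∃ v ∈ U \ R, G i 1 {v}
    · obtain ⟨i, hi, v, hv, hG⟩ := hat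
      obtain ⟨hvU, hvR⟩ := Finset.mem_sdiff.1 hv
      obtain ⟨A', hA', hdis⟩ := ih (I.erase i) (insert v R)
        (by rw [Finset.card_erase_of_mem hi]; omega)
        (Finset.insert_subset hvU hR)
        (by rw [Finset.card_insert_of_notMem hvR]; omega)
        (fun j hj => h j (Finset.mem_of_mem_erase hj))
      have hsubR : ∀ j ∈ I, j ≠ i → A' j ⊆ U \ R ∧ v ∉ A' j := by
        intro j hj hji
        obtain ⟨h1, -⟩ := hA' j (Finset.mem_erase.2 ⟨hji, hj⟩)
        refine ⟨h1.trans (Finset.sdiff_subset_sdiff subset_rfl (Finset.subset_insert _ _)), ?_⟩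
        intro hv'
        have := (Finset.mem_sdiff.1 (h1 hv')).2
        exact this (Finset.mem_insert_self _ _)
      refine ⟨fun j => if j = i then {v} else A' j, ?_, ?_⟩
      · intro j hj
        by_cases hji : j = i
        · subst hji
          simp only [if_true]
          exact ⟨by simpa using hv, hG⟩
        · simp only [hji, if_false]
          exact ⟨(hsubR j hj hji).1, (hA' j (Finset.mem_erase.2 ⟨hji, hj⟩)).2⟩
      · intro j hj k hk hjk
        by_cases hji : j = i
        · subst hji
          have hkj : k ≠ j := fun h => hjk h.symm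
          simp only [if_true, hkj, if_false]
          exact Finset.disjoint_singleton_left.2 (hsubR k hk hkj).2
        · by_cases hki : k = i
          · subst hki
            simp only [hji, if_false, if_true]
            exact Finset.disjoint_singleton_right.2 (hsubR j hj hji).2
          · simp only [hji, hki, if_false]
            exact hdis j (Finset.mem_erase.2 ⟨hji, hj⟩) k (Finset.mem_erase.2 ⟨hki, hk⟩) hjk
    · push Not at hat
      exact partition_noAtoms G hanti hsub (n + 1) I (U \ R) hI hat fun i hi =>
        hanti _ _ _ _ (by omega) (h i hi R hR (by omega))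

end Pool.Agent.Lib.MP_85df58_lc
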