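import Pool.Agent.Lib.MP_85df58_lc.Cases
import Pool.Agent.Lib.MP_85df58_lc.Partition

/-!
# The main case: splitting the values of the functional
-/

namespace Pool.Agent.Lib.MP_85df58_lc

open Topology

variable {ℓ : ℕ → ℕ}

/-- The hypotheses of the main case. -/
structure Main (q : Cond ℓ) (F : Node → ℕ → Part Bool) (m : ℕ → ℕ) : Prop where
  part : Partrec₂ F
  mono : MonoN F
  comp : Computable m
  lvl : ∀ j, q.σ.length ≤ j → 4 * lvlCard ℓ j * q.b j ≤ m j ∧ 2 * m j ≤ q.g j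
  gap : Gap ℓ q.b m
  one : ∀ τ ∈ q.T, q.σ <:+ τ → ∀ n, Big (fun j => 2 * m j) ((Conv F n ∪ q.B) ∩ q.T) τ
  two : ∀ τ ∈ q.T, q.σ <:+ τ → ∀ X : ℕ → Bool, Big m ((Dis F X ∪ q.B) ∩ q.T) τ

variable {q : Cond ℓ} {F : Node → ℕ → Part Bool} {m : ℕ → ℕ}

/-- The values of `F` on `ρ` at the arguments below `n` are given by `α`. -/
def Val (F : Node → ℕ → Part Bool) (ρ : Node) (n : ℕ) (α : List Bool) : Prop :=
  α.length = n ∧ ∀ l < n, α.getD l false ∈ F ρ l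

theorem Val.mono (hF : MonoN F) {ρ ρ' : Node} {n : ℕ} {α : List Bool} (h : Val F ρ n α)
    (hs : ρ <:+ ρ') : Val F ρ' n α :=
  ⟨h.1, fun l hl => hF _ _ _ _ hs (h.2 l hl)⟩

theorem Main.conv (h : Main q F m) (n : ℕ) {τ : Node} (hτT : τ ∈ q.T) (hτ : q.σ <:+ τ) :
    Big m (({ρ | ∀ l < n, (F ρ l).Dom} ∪ q.B) ∩ q.T) τ := by
  induction n with
  | zero => exact .base ⟨.inl (by simp), hτT⟩
  | succ n ih =>
    refine ih.trans ?_
    rintro ρ ⟨h1 | h1, h2⟩ hs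
    · have h3 := h.one ρ h2 (hτ.trans hs) n
      have h4 : Big m ((Conv F n ∪ q.B) ∩ q.T) ρ :=
        h3.mono (fun j _ => by omega) fun _ h _ => h
      refine h4.mono (fun _ _ => le_rfl) ?_
      rintro ρ' ⟨h5 | h5, h6⟩ hs'
      · refine ⟨.inl fun l hl => ?_, h6⟩
        rcases Nat.lt_succ_iff_lt_or_eq.1 hl with hl | rfl
        · exact h.mono.conv hs' (h1 l hl)
        · exact h5
      · exact ⟨.inr h5, h6⟩
    · exact .base ⟨.inr h1, h2⟩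

theorem Main.dis (h : Main q F m) {N : ℕ} (X : Fin N → ℕ → Bool) (k : ℕ) {τ : Node}
    (hτT : τ ∈ q.T) (hτ : q.σ <:+ τ) :
    Big m (({ρ | ∀ i : Fin N, i.val < k → ρ ∈ Dis F (X i)} ∪ q.B) ∩ q.T) τ := by
  induction k with
  | zero => exact .base ⟨.inl (by simp), hτT⟩
  | succ k ih =>
    by_cases hk : k < N
    · refine ih.trans ?_
      rintro ρ ⟨h1 | h1, h2⟩ hs
      · refine (h.two ρ h2 (hτ.trans hs) (X ⟨k, hk⟩)).mono (fun _ _ => le_rfl) ?_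
        rintro ρ' ⟨h5 | h5, h6⟩ hs'
        · refine ⟨.inl fun i hi => ?_, h6⟩
          rcases Nat.lt_succ_iff_lt_or_eq.1 hi with hi | hi
          · obtain ⟨n, v, hv, hv'⟩ := h1 i hi
            exact ⟨n, v, h.mono _ _ _ _ hs' hv, hv'⟩
          · have : i = ⟨k, hk⟩ := Fin.ext hi
            rw [this]
            exact h5
        · exact ⟨.inr h5, h6⟩
      · exact .base ⟨.inr h1, h2⟩
    · refine ih.mono (fun _ _ => le_rfl) ?_
      rintro ρ ⟨h1 | h1, h2⟩ -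
      · exact ⟨.inl fun i _ => h1 i (by have := i.2; omega), h2⟩
      · exact ⟨.inr h1, h2⟩

/-- The strings on which `F` disagrees with `X` below `n`. -/
def DisN (F : Node → ℕ → Part Bool) (X : ℕ → Bool) (n : ℕ) : Set Node :=
  {ρ | ∃ l < n, ∃ v ∈ F ρ l, v ≠ X l}

theorem Main.compact (h : Main q F m) (N : ℕ) {τ : Node} (hτT : τ ∈ q.T) (hτ : q.σ <:+ τ) :
    ∃ n₀, ∀ n, n₀ ≤ n → ∀ X : Fin N → ℕ → Bool,
      Big m (({ρ | ∀ i, ρ ∈ DisN F (X i) n} ∪ q.B) ∩ q.T) τ := by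
  let U : ℕ → Set (Fin N → ℕ → Bool) := fun n =>
    {X | Big m (({ρ | ∀ i, ρ ∈ DisN F (X i) n} ∪ q.B) ∩ q.T) τ}
  have hmono : Monotone U := by
    intro n n' hn X hX
    refine Big.mono hX (fun _ _ => le_rfl) ?_
    rintro ρ ⟨h1 | h1, h2⟩ -
    · refine ⟨.inl fun i => ?_, h2⟩
      obtain ⟨l, hl, v, hv⟩ := h1 i
      exact ⟨l, hl.trans_le hn, v, hv⟩
    · exact ⟨.inr h1, h2⟩
  have hopen : ∀ n, IsOpen (U n) := by
    intro n
    rw [isOpen_iff_mem_nhds]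
    intro X hX
    have h1 : ∀ᶠ Y in 𝓝 X, ∀ i : Fin N, ∀ l ∈ Finset.range n, Y i l = X i l := by
      rw [Filter.eventually_all]
      intro i
      rw [Filter.eventually_all_finset]
      intro l _
      have h2 : IsOpen {Y : Fin N → ℕ → Bool | Y i l = X i l} := by
        have h3 : Continuous fun Y : Fin N → ℕ → Bool => Y i l := continuous_apply_apply i l
        exact (isOpen_discrete {X i l}).preimage h3
      exact h2.mem_nhds rfl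
    filter_upwards [h1] with Y hY
    refine Big.mono hX (fun _ _ => le_rfl) ?_
    rintro ρ ⟨h1 | h1, h2⟩ -
    · refine ⟨.inl fun i => ?_, h2⟩
      obtain ⟨l, hl, v, hv, hv'⟩ := h1 i
      exact ⟨l, hl, v, hv, by rw [hY i l (Finset.mem_range.2 hl)]; exact hv'⟩
    · exact ⟨.inr h1, h2⟩
  have hcover : (Set.univ : Set (Fin N → ℕ → Bool)) ⊆ ⋃ n, U n := by
    intro X _
    have h1 := h.dis X N hτT hτ
    let S : ℕ → Set Node := fun n => ({ρ | ∀ i, ρ ∈ DisN F (X i) n} ∪ q.B) ∩ q.T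
    have hS : Monotone S := by
      rintro n n' hn ρ ⟨h1 | h1, h2⟩
      · refine ⟨.inl fun i => ?_, h2⟩
        obtain ⟨l, hl, v, hv⟩ := h1 i
        exact ⟨l, hl.trans_le hn, v, hv⟩
      · exact ⟨.inr h1, h2⟩
    have h2 : Big m (⋃ n, S n) τ := by
      refine h1.mono (fun _ _ => le_rfl) ?_
      rintro ρ ⟨h1 | h1, h2⟩ -
      · have h3 : ∀ i : Fin N, ∃ l, ∃ v ∈ F ρ l, v ≠ X i l := fun i => h1 i i.2
        choose l hl using h3
        refine Set.mem_iUnion.2 ⟨Finset.univ.sup l + 1, .inl fun i => ?_, h2⟩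
        exact ⟨l i, Nat.lt_succ_of_le (Finset.le_sup (f := l) (Finset.mem_univ i)), hl i⟩
      · exact Set.mem_iUnion.2 ⟨0, .inr h1, h2⟩
    obtain ⟨n, hn⟩ := h2.iUnion hS
    exact Set.mem_iUnion.2 ⟨n, hn⟩
  obtain ⟨n₀, hn₀⟩ := isCompact_univ.elim_directed_cover U hopen hcover
    (directed_of_isDirected_le hmono)
  exact ⟨n₀, fun n hn X => hmono hn (hn₀ (Set.mem_univ X))⟩

theorem Main.values (h : Main q F m) (N : ℕ) {τ : Node} (hτT : τ ∈ q.T) (hτ : q.σ <:+ τ) :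
    ∃ n₀, ∀ n, n₀ ≤ n → ∀ R : Finset (List Bool), R.card ≤ N →
      Big m (({ρ | ∃ α, Val F ρ n α ∧ α ∉ R} ∪ q.B) ∩ q.T) τ := by
  classical
  obtain ⟨n₀, hn₀⟩ := h.compact N hτT hτ
  refine ⟨n₀, fun n hn R hR => ?_⟩
  -- enumerate `R`
  obtain ⟨X, hX⟩ : ∃ X : Fin N → ℕ → Bool, ∀ r ∈ R, ∃ i, ∀ l, X i l = r.getD l false := by
    let e := R.equivFin
    refine ⟨fun i l => if hi : i.val < R.card then
      ((e.symm ⟨i.val, hi⟩ : R) : List Bool).getD l false else false, fun r hr => ?_⟩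
    refine ⟨⟨(e ⟨r, hr⟩).val, (e ⟨r, hr⟩).2.trans_le hR⟩, fun l => ?_⟩
    have h1 : (e ⟨r, hr⟩).val < R.card := (e ⟨r, hr⟩).2
    simp only [h1, dif_pos]
    have h2 : (⟨(e ⟨r, hr⟩).val, h1⟩ : Fin R.card) = e ⟨r, hr⟩ := rfl
    rw [h2, Equiv.symm_apply_apply]
  refine (hn₀ n hn X).trans ?_
  rintro ρ ⟨h1 | h1, h2⟩ hs
  · refine (h.conv n h2 (hτ.trans hs)).mono (fun _ _ => le_rfl) ?_
    rintro ρ' ⟨h5 | h5, h6⟩ hs'
    · refine ⟨.inl ?_, h6⟩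
      have h5' : ∀ l : Fin n, (F ρ' l).Dom := fun l => h5 l l.2
      refine ⟨List.ofFn fun l : Fin n => (F ρ' l).get (h5' l), ⟨by simp, ?_⟩, ?_⟩
      · intro l hl
        rw [List.getD_eq_getElem _ _ (by simpa using hl), List.getElem_ofFn]
        exact Part.get_mem _
      · intro hR'
        obtain ⟨i, hi⟩ := hX _ hR'
        obtain ⟨l, hl, v, hv, hv'⟩ := h1 i
        refine hv' ?_
        rw [hi, List.getD_eq_getElem _ _ (by simpa using hl), List.getElem_ofFn]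
        exact Part.mem_unique (h.mono _ _ _ _ hs' hv) (Part.get_mem _)
    · exact ⟨.inr h5, h6⟩
  · exact .base ⟨.inr h1, h2⟩

theorem Main.split (h : Main q F m) (M : Finset Node) (hM : ∀ τ ∈ M, τ ∈ q.T ∧ q.σ <:+ τ)
    {c : ℕ → ℕ} (hc : ∀ j, q.σ.length ≤ j → 2 * M.card * c j ≤ m j) :
    ∃ n, ∃ A : Node → Finset (List Bool), (∀ τ ∈ M,
      Big c (({ρ | ∃ α ∈ A τ, Val F ρ n α} ∪ q.B) ∩ q.T) τ) ∧
      ∀ τ ∈ M, ∀ τ' ∈ M, τ ≠ τ' → Disjoint (A τ) (A τ') := by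
  classical
  have h1 : ∀ τ ∈ M, ∃ n₀, ∀ n, n₀ ≤ n → ∀ R : Finset (List Bool), R.card ≤ M.card →
      Big m (({ρ | ∃ α, Val F ρ n α ∧ α ∉ R} ∪ q.B) ∩ q.T) τ := fun τ hτ =>
    h.values M.card (hM τ hτ).1 (hM τ hτ).2
  choose! n₀ hn₀ using h1
  let n := M.sup n₀
  let G : Node → ℕ → Finset (List Bool) → Prop := fun τ s A =>
    q.σ <:+ τ → Big (fun j => s * c j) (({ρ | ∃ α ∈ A, Val F ρ n α} ∪ q.B) ∩ q.T) τ
  have hanti : ∀ τ s t A, s ≤ t → G τ t A → G τ s A := by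
    intro τ s t A hst hG hs
    exact (hG hs).mono (fun j _ => Nat.mul_le_mul_right _ hst) fun _ h _ => h
  have hsub : ∀ τ s t A B, G τ (s + t) (A ∪ B) → G τ s A ∨ G τ t B := by
    intro τ s t A B hG
    by_cases hs : q.σ <:+ τ
    · have h2 : Big (fun j => (s + t) * c j) ((({ρ | ∃ α ∈ A, Val F ρ n α} ∪ q.B) ∩ q.T) ∪
          (({ρ | ∃ α ∈ B, Val F ρ n α} ∪ q.B) ∩ q.T)) τ := by
        refine (hG hs).mono (fun _ _ => le_rfl) ?_
        rintro ρ ⟨⟨α, hα, hv⟩ | h1, h2⟩ -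
        · rcases Finset.mem_union.1 hα with hα | hα
          · exact .inl ⟨.inl ⟨α, hα, hv⟩, h2⟩
          · exact .inr ⟨.inl ⟨α, hα, hv⟩, h2⟩
        · exact .inl ⟨.inr h1, h2⟩
      rcases h2.union (c₁ := fun j => s * c j) (c₂ := fun j => t * c j)
        (fun j _ => (add_mul s t (c j)).ge) with h3 | h3
      · exact .inl fun _ => h3
      · exact .inr fun _ => h3
    · exact .inl fun h => absurd h hs
  obtain ⟨A, hA, hdis⟩ := partition G hanti hsub (boolLists n) M.card M.card M ∅ rfl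
    (Finset.empty_subset _) (by simp) (by
      intro τ hτ R _ hR hs
      have h2 := hn₀ τ hτ n (Finset.le_sup (f := n₀) hτ) R hR
      refine h2.mono (fun j hj => hc j (hs.length_le.trans hj)) ?_
      rintro ρ ⟨⟨α, hα, hv⟩ | h1, h2⟩ -
      · exact ⟨.inl ⟨α, Finset.mem_sdiff.2 ⟨mem_boolLists.2 hα.1, hv⟩, hα⟩, h2⟩
      · exact ⟨.inr h1, h2⟩)
  refine ⟨n, A, fun τ hτ => ?_, hdis⟩
  exact ((hA τ hτ).2 (hM τ hτ).2).mono (fun j _ => by omega) fun _ h _ => h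

theorem Cond.toLevel (q : Cond ℓ) {c : ℕ → ℕ} (hc : ∀ j, q.σ.length ≤ j → c j ≤ q.g j) (J : ℕ)
    {ρ : Node} (hρT : ρ ∈ q.T) (hρ : q.σ <:+ ρ) (hJ : ρ.length ≤ J) :
    Big c (({ρ' | ρ'.length = J} ∪ {ρ' | ρ' ∈ q.B ∧ ρ'.length ≤ J}) ∩ q.T) ρ := by
  obtain ⟨d, rfl⟩ := Nat.exists_eq_add_of_le hJ
  induction d generalizing ρ with
  | zero => exact .base ⟨.inl (by simp), hρT⟩
  | succ d ih =>
    rcases q.bushy ρ hρT hρ with h | ⟨C, hC, hC'⟩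
    · exact .base ⟨.inr ⟨h, hJ⟩, hρT⟩
    · refine .step C ((hc _ hρ.length_le).trans hC) fun a ha => ?_
      have h1 := ih (hC' a ha) (hρ.trans (List.suffix_cons _ _)) (by simp)
      have h2 : (a :: ρ).length + d = ρ.length + (d + 1) := by
        simp only [List.length_cons]; omega
      rw [h2] at h1
      exact h1

theorem Main.splitLevel (h : Main q F m) (J : ℕ) (M : Finset Node)
    (hM : ∀ τ ∈ M, τ ∈ q.T ∧ q.σ <:+ τ) {c : ℕ → ℕ}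
    (hc : ∀ j, q.σ.length ≤ j → 2 * M.card * c j ≤ m j) (hcg : ∀ j, q.σ.length ≤ j → c j ≤ q.g j) :
    ∃ n J', J < J' ∧ ∃ A : Node → Finset (List Bool), (∀ τ ∈ M,
      Big c (({ρ | ρ.length = J' ∧ ∃ α ∈ A τ, Val F ρ n α} ∪
        {ρ | ρ ∈ q.B ∧ ρ.length ≤ J'}) ∩ q.T) τ) ∧
      ∀ τ ∈ M, ∀ τ' ∈ M, τ ≠ τ' → Disjoint (A τ) (A τ') := by
  classical
  obtain ⟨n, A, hA, hdis⟩ := h.split M hM hc
  have h1 : ∀ τ ∈ M, ∃ L, Big c ((({ρ | ∃ α ∈ A τ, Val F ρ n α} ∪ q.B) ∩ q.T) ∩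
      {ρ | ρ.length ≤ L}) τ := by
    intro τ hτ
    refine Big.iUnion (S := fun L => (({ρ | ∃ α ∈ A τ, Val F ρ n α} ∪ q.B) ∩ q.T) ∩
      {ρ | ρ.length ≤ L}) ?_ ?_
    · rintro L L' hL ρ ⟨h1, h2⟩
      exact ⟨h1, le_trans h2 hL⟩
    · exact (hA τ hτ).mono (fun _ _ => le_rfl) fun ρ hρ _ =>
        Set.mem_iUnion.2 ⟨ρ.length, hρ, by simp⟩
  choose! L hL using h1
  refine ⟨n, max (J + 1) (M.sup L), by omega, A, fun τ hτ => ?_, hdis⟩
  refine (hL τ hτ).trans ?_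
  rintro ρ ⟨⟨h1, h2⟩, h3⟩ hs
  have h3' : ρ.length ≤ max (J + 1) (M.sup L) :=
    (le_trans h3 (Finset.le_sup (f := L) hτ)).trans (le_max_right _ _)
  rcases h1 with ⟨α, hα, hv⟩ | h1
  · refine (q.toLevel hcg _ h2 ((hM τ hτ).2.trans hs) h3').mono (fun _ _ => le_rfl) ?_
    rintro ρ' ⟨h4 | h4, h5⟩ hs'
    · exact ⟨.inl ⟨h4, α, hα, hv.mono h.mono hs'⟩, h5⟩
    · exact ⟨.inr h4, h5⟩
  · exact .base ⟨.inr ⟨h1, h3'⟩, h2⟩

end Pool.Agent.Lib.MP_85df58_lc
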