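import Pool.Agent.Lib.MP_85df58_lc.StageA

/-!
# The main case: stages and their enumerability
-/

namespace Pool.Agent.Lib.MP_85df58_lc

open Primrec

variable {ℓ : ℕ → ℕ} {q : Cond ℓ} {F : Node → ℕ → Part Bool} {m : ℕ → ℕ}

/-- A level together with a finite list of nodes of this level. -/
abbrev St : Type := ℕ × List Node

/-- The data of a stage. -/
abbrev Data : Type := ℕ × ℕ × List (List Bool × Node) × List Node × List Node

/-- Number of values of the functional which are inspected. -/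
def dn (D : Data) : ℕ := D.1
/-- The next level. -/
def dJ (D : Data) : ℕ := D.2.1
/-- The decoding table. -/
def ddec (D : Data) : List (List Bool × Node) := D.2.2.1
/-- The nodes of the next level. -/
def dM (D : Data) : List Node := D.2.2.2.1
/-- All nodes which are added to the tree at this stage. -/
def dW (D : Data) : List Node := D.2.2.2.2

/-- The bushiness threshold of a stage which starts with `k` nodes. -/
def thr (m : ℕ → ℕ) (k j : ℕ) : ℕ := m j / (2 * (k + 1))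

/-- `D` is a valid stage after the state `s`. -/
structure IsStage (q : Cond ℓ) (F : Node → ℕ → Part Bool) (m : ℕ → ℕ) (s : St) (D : Data) :
    Prop where
  lt : s.1 < dJ D
  sub : ∀ τ ∈ s.2, τ ∈ dW D
  node : ∀ μ ∈ dW D, (μ ∈ q.T ∧ (μ ∈ s.2 ∨ (μ ≠ [] ∧ μ.tail ∈ dW D))) ∧ (μ.length ≤ dJ D ∧
    (μ ∈ dM D ∨ (μ ∈ q.B ∨ Kids (thr m s.2.length) (dW D) μ)))
  next : ∀ ρ ∈ dM D, (ρ ∈ dW D ∧ ρ.length = dJ D) ∧
    ∃ α, Val F ρ (dn D) α ∧ (α, ρ.drop (dJ D - s.1)) ∈ ddec D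
  func : ∀ x ∈ ddec D, ∀ y ∈ ddec D, x.1 = y.1 → x.2 = y.2
  nodup : (dM D).Nodup

section Enumerable

theorem primrec_dn : Primrec dn := fst
theorem primrec_dJ : Primrec dJ := fst.comp snd
theorem primrec_ddec : Primrec ddec := fst.comp (snd.comp snd)
theorem primrec_dM : Primrec dM := fst.comp (snd.comp (snd.comp snd))
theorem primrec_dW : Primrec dW := snd.comp (snd.comp (snd.comp snd))

theorem ce_val (hF : Partrec₂ F) : CE fun z : (Node × ℕ) × List Bool => Val F z.1.1 z.1.2 z.2 := by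
  have h1 : CE fun z : (Node × ℕ) × List Bool => z.2.length = z.1.2 :=
    CE.of_primrec (Primrec.eq.comp (list_length.comp snd) (snd.comp fst))
  have h2 : CE fun z : (Node × ℕ) × List Bool =>
      ∀ l ∈ List.range z.1.2, z.2.getD l false ∈ F z.1.1 l := by
    refine CE.forall_mem (p := fun w : ((Node × ℕ) × List Bool) × ℕ =>
      w.1.2.getD w.2 false ∈ F w.1.1.1 w.2) ?_ (list_range.comp (snd.comp fst))
    have h3 : CE fun w : (Node × ℕ) × Bool => w.2 ∈ F w.1.1 w.1.2 :=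
      CE.graph (f := fun y : Node × ℕ => F y.1 y.2) hF
    exact h3.comp (f := fun w : ((Node × ℕ) × List Bool) × ℕ =>
      ((w.1.1.1, w.2), w.1.2.getD w.2 false))
      (Primrec.pair (Primrec.pair (fst.comp (fst.comp fst)) snd)
        ((list_getD false).comp (snd.comp fst) snd))
  exact (h1.and h2).of_eq fun z => by simp [Val]

theorem ce_isStage (h : Main q F m) : CE fun z : St × Data => IsStage q F m z.1 z.2 := by
  have pJ : Primrec fun z : St × Data => z.1.1 := fst.comp fst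
  have pM : Primrec fun z : St × Data => z.1.2 := snd.comp fst
  have pn' : Primrec fun z : St × Data => dn z.2 := primrec_dn.comp snd
  have pJ' : Primrec fun z : St × Data => dJ z.2 := primrec_dJ.comp snd
  have pdec : Primrec fun z : St × Data => ddec z.2 := primrec_ddec.comp snd
  have pM' : Primrec fun z : St × Data => dM z.2 := primrec_dM.comp snd
  have pW : Primrec fun z : St × Data => dW z.2 := primrec_dW.comp snd
  have e1 : CE fun z : St × Data => z.1.1 < dJ z.2 := CE.of_primrec (Primrec.nat_lt.comp pJ pJ')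
  have e2 : CE fun z : St × Data => ∀ τ ∈ z.1.2, τ ∈ dW z.2 :=
    CE.forall_mem (p := fun w : (St × Data) × Node => w.2 ∈ dW w.1.2)
      (CE.of_primrec (primrec_mem.comp snd (pW.comp fst))) pM
  have e3 : CE fun z : St × Data => ∀ μ ∈ dW z.2,
      (μ ∈ q.T ∧ (μ ∈ z.1.2 ∨ (μ ≠ [] ∧ μ.tail ∈ dW z.2))) ∧ (μ.length ≤ dJ z.2 ∧
        (μ ∈ dM z.2 ∨ (μ ∈ q.B ∨ Kids (thr m z.1.2.length) (dW z.2) μ))) := by
    refine CE.forall_mem (p := fun w : (St × Data) × Node =>
      (w.2 ∈ q.T ∧ (w.2 ∈ w.1.1.2 ∨ (w.2 ≠ [] ∧ w.2.tail ∈ dW w.1.2))) ∧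
        (w.2.length ≤ dJ w.1.2 ∧ (w.2 ∈ dM w.1.2 ∨ (w.2 ∈ q.B ∨
          Kids (thr m w.1.1.2.length) (dW w.1.2) w.2)))) ?_ pW
    refine CE.and (CE.and (q.ceT.comp snd) (CE.or ?_ (CE.and ?_ ?_)))
      (CE.and ?_ (CE.or ?_ (CE.or (q.ceB.comp snd) ?_)))
    · exact CE.of_primrec (primrec_mem.comp snd (pM.comp fst))
    · exact CE.of_primrec (PrimrecPred.not (Primrec.eq.comp snd (Primrec.const [])))
    · exact CE.of_primrec (primrec_mem.comp (list_tail.comp snd) (pW.comp fst))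
    · exact CE.of_primrec (Primrec.nat_le.comp (list_length.comp snd) (pJ'.comp fst))
    · exact CE.of_primrec (primrec_mem.comp snd (pM'.comp fst))
    · refine ce_kids (γ := (St × Data) × Node) (c := fun w => thr m w.1.1.2.length) ?_
        (pW.comp fst) snd
      have hlen : Computable fun w : ((St × Data) × Node) × ℕ => w.1.1.1.2.length :=
        (list_length.comp (pM.comp (fst.comp fst))).to_comp
      have hden : Computable fun w : ((St × Data) × Node) × ℕ =>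
          2 * (w.1.1.1.2.length + 1) :=
        Primrec.nat_mul.to_comp.comp (Computable.const 2) (Computable.succ.comp hlen)
      exact Primrec.nat_div.to_comp.comp (h.comp.comp Computable.snd) hden
  have e4 : CE fun z : St × Data => ∀ ρ ∈ dM z.2, (ρ ∈ dW z.2 ∧ ρ.length = dJ z.2) ∧
      ∃ α, Val F ρ (dn z.2) α ∧ (α, ρ.drop (dJ z.2 - z.1.1)) ∈ ddec z.2 := by
    refine CE.forall_mem (p := fun w : (St × Data) × Node =>
      (w.2 ∈ dW w.1.2 ∧ w.2.length = dJ w.1.2) ∧ ∃ α, Val F w.2 (dn w.1.2) α ∧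
        (α, w.2.drop (dJ w.1.2 - w.1.1.1)) ∈ ddec w.1.2) ?_ pM'
    refine CE.and (CE.and ?_ ?_) ?_
    · exact CE.of_primrec (primrec_mem.comp snd (pW.comp fst))
    · exact CE.of_primrec (Primrec.eq.comp (list_length.comp snd) (pJ'.comp fst))
    · refine CE.exists (p := fun v : ((St × Data) × Node) × List Bool =>
        Val F v.1.2 (dn v.1.1.2) v.2 ∧
          (v.2, v.1.2.drop (dJ v.1.1.2 - v.1.1.1.1)) ∈ ddec v.1.1.2) (CE.and ?_ ?_)
      · exact (ce_val h.part).comp (f := fun v : ((St × Data) × Node) × List Bool =>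
          ((v.1.2, dn v.1.1.2), v.2))
          (Primrec.pair (Primrec.pair (snd.comp fst) (pn'.comp (fst.comp fst))) snd)
      · refine CE.of_primrec (primrec_mem.comp (Primrec.pair snd ?_) (pdec.comp (fst.comp fst)))
        exact list_drop.comp (Primrec.nat_sub.comp (pJ'.comp (fst.comp fst))
          (pJ.comp (fst.comp fst))) (snd.comp fst)
  have e5 : CE fun z : St × Data => ∀ x ∈ ddec z.2, ∀ y ∈ ddec z.2, x.1 = y.1 → x.2 = y.2 := by
    refine CE.forall_mem (p := fun w : (St × Data) × (List Bool × Node) =>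
      ∀ y ∈ ddec w.1.2, w.2.1 = y.1 → w.2.2 = y.2) ?_ pdec
    refine CE.forall_mem (p := fun v : ((St × Data) × (List Bool × Node)) × (List Bool × Node) =>
      v.1.2.1 = v.2.1 → v.1.2.2 = v.2.2) ?_ (pdec.comp fst)
    refine (CE.of_primrec (PrimrecPred.or (PrimrecPred.not (Primrec.eq.comp
      (fst.comp (snd.comp fst)) (fst.comp snd))) (Primrec.eq.comp
      (snd.comp (snd.comp fst)) (snd.comp snd)))).of_eq fun v => ?_
    rw [imp_iff_not_or]
  have e6 : CE fun z : St × Data => (dM z.2).Nodup := CE.of_primrec (primrec_nodup.comp pM')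
  refine (e1.and (e2.and (e3.and (e4.and (e5.and e6))))).of_eq fun z => ?_
  constructor
  · rintro ⟨h1, h2, h3, h4, h5, h6⟩
    exact ⟨h1, h2, h3, h4, h5, h6⟩
  · rintro ⟨h1, h2, h3, h4, h5, h6⟩
    exact ⟨h1, h2, h3, h4, h5, h6⟩

end Enumerable

/-- The invariant of the states. -/
structure Inv (q : Cond ℓ) (s : St) : Prop where
  mem : ∀ τ ∈ s.2, τ ∈ q.T ∧ q.σ <:+ τ ∧ τ.length = s.1
  nodup : s.2.Nodup
  le : q.σ.length ≤ s.1

theorem Inv.card {s : St} (hs : Inv q s) : s.2.length ≤ lvlCard ℓ s.1 := by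
  classical
  rw [← List.toFinset_card_of_nodup hs.nodup]
  refine card_le_lvlCard fun ν hν => ?_
  obtain ⟨h1, -, h2⟩ := hs.mem ν (by simpa using hν)
  exact ⟨q.valid _ h1, h2⟩

theorem Main.one_le_thr (h : Main q F m) {s : St} (hs : Inv q s) {j : ℕ} (hj : s.1 ≤ j) :
    m j / (4 * lvlCard ℓ j) ≤ thr m s.2.length j ∧ 1 ≤ m j / (4 * lvlCard ℓ j) := by
  have h1 := hs.card
  have h2 := lvlCard_mono ℓ hj
  have h3 := lvlCard_pos ℓ j
  have h4 := (h.lvl j (hs.le.trans hj)).1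
  have h5 := (q.lvl j (hs.le.trans hj)).1
  constructor
  · exact Nat.div_le_div_left (by omega) (by omega)
  · rw [Nat.le_div_iff_mul_le (by omega)]
    calc 1 * (4 * lvlCard ℓ j) = 4 * lvlCard ℓ j * 1 := by ring
      _ ≤ 4 * lvlCard ℓ j * q.b j := Nat.mul_le_mul_left _ h5
      _ ≤ m j := h4

theorem Main.exists_stage (h : Main q F m) {s : St} (hs : Inv q s) :
    ∃ D : Data, IsStage q F m s D := by
  classical
  obtain ⟨J, M⟩ := s
  have hM : ∀ τ ∈ M.toFinset, τ ∈ q.T ∧ q.σ <:+ τ := fun τ hτ => by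
    obtain ⟨h1, h2, -⟩ := hs.mem τ (by simpa using hτ)
    exact ⟨h1, h2⟩
  have hcard : M.toFinset.card = M.length := List.toFinset_card_of_nodup hs.nodup
  have hc : ∀ j, q.σ.length ≤ j → 2 * M.toFinset.card * thr m M.length j ≤ m j := by
    intro j _
    rw [hcard, thr]
    calc 2 * M.length * (m j / (2 * (M.length + 1)))
        ≤ 2 * (M.length + 1) * (m j / (2 * (M.length + 1))) :=
          Nat.mul_le_mul_right _ (by omega)
      _ ≤ m j := Nat.mul_div_le _ _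
  have hcg : ∀ j, q.σ.length ≤ j → thr m M.length j ≤ q.g j := by
    intro j hj
    have h1 := (h.lvl j hj).2
    have h2 : thr m M.length j ≤ m j := Nat.div_le_self _ _
    omega
  obtain ⟨n, J', hJ, A, hA, hdis⟩ := h.splitLevel J M.toFinset hM hc hcg
  have h1 : ∀ τ ∈ M, ∃ W : Finset Node, τ ∈ W ∧ (∀ μ ∈ W, τ <:+ μ) ∧
      (∀ μ ∈ W, μ = τ ∨ (μ ≠ [] ∧ μ.tail ∈ W)) ∧ (∀ μ ∈ W, μ ∈ q.T) ∧
      (∀ μ ∈ W, μ ∈ (({ρ | ρ.length = J' ∧ ∃ α ∈ A τ, Val F ρ n α} ∪
        {ρ | ρ ∈ q.B ∧ ρ.length ≤ J'}) ∩ q.T) ∨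
        ∃ C : Finset (List Bool), thr m M.length μ.length ≤ C.card ∧ ∀ a ∈ C, a :: μ ∈ W) ∧
      ∀ μ ∈ W, ∃ ρ ∈ (({ρ | ρ.length = J' ∧ ∃ α ∈ A τ, Val F ρ n α} ∪
        {ρ | ρ ∈ q.B ∧ ρ.length ≤ J'}) ∩ q.T), μ <:+ ρ := by
    intro τ hτ
    obtain ⟨g1, g2, g3⟩ := hs.mem τ hτ
    refine (hA τ (by simpa using hτ)).certificate ?_ Set.inter_subset_right q.down g2
    intro j hj
    rw [g3] at hj
    have := h.one_le_thr hs hj
    exact this.2.trans this.1
  choose! W hW1 hW2 hW3 hW4 hW5 hW6 using h1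
  let dec : List (List Bool × Node) := M.flatMap fun τ => (A τ).toList.map fun α => (α, τ)
  have hdec : ∀ α τ, (α, τ) ∈ dec ↔ τ ∈ M ∧ α ∈ A τ := by
    intro α τ
    simp only [dec, List.mem_flatMap, List.mem_map, Finset.mem_toList, Prod.mk.injEq]
    constructor
    · rintro ⟨τ', h1, α', h2, rfl, rfl⟩
      exact ⟨h1, h2⟩
    · rintro ⟨h1, h2⟩
      exact ⟨τ, h1, α, h2, rfl, rfl⟩
  let WW : Finset Node := M.toFinset.biUnion W
  have hWW : ∀ μ, μ ∈ WW ↔ ∃ τ ∈ M, μ ∈ W τ := by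
    intro μ
    simp [WW]
  let M' : List Node := (WW.filter fun ρ => ρ.length = J' ∧
    ∃ α, Val F ρ n α ∧ (α, ρ.drop (J' - J)) ∈ dec).toList
  have hM' : ∀ ρ, ρ ∈ M' ↔ ρ ∈ WW ∧ ρ.length = J' ∧
      ∃ α, Val F ρ n α ∧ (α, ρ.drop (J' - J)) ∈ dec := by
    intro ρ
    simp [M']
  have hdrop : ∀ τ ∈ M, ∀ μ : Node, τ <:+ μ → μ.length = J' → μ.drop (J' - J) = τ := by
    intro τ hτ μ hs' hl
    refine suffix_eq_of_length (List.drop_suffix _ _) hs' ?_
    obtain ⟨-, -, g3⟩ := hs.mem τ hτ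
    simp only at g3
    rw [List.length_drop, g3, hl]
    omega
  refine ⟨(n, J', dec, M', WW.toList), ⟨hJ, ?_, ?_, ?_, ?_, Finset.nodup_toList _⟩⟩
  · intro τ hτ
    change τ ∈ WW.toList
    rw [Finset.mem_toList, hWW]
    exact ⟨τ, hτ, hW1 τ hτ⟩
  · intro μ hμ
    change μ ∈ WW.toList at hμ
    rw [Finset.mem_toList, hWW] at hμ
    obtain ⟨τ, hτ, hμ⟩ := hμ
    refine ⟨⟨hW4 τ hτ μ hμ, ?_⟩, ?_, ?_⟩
    · rcases hW3 τ hτ μ hμ with rfl | ⟨g1, g2⟩
      · exact .inl hτ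
      · refine .inr ⟨g1, ?_⟩
        change μ.tail ∈ WW.toList
        rw [Finset.mem_toList, hWW]
        exact ⟨τ, hτ, g2⟩
    · obtain ⟨ρ, ⟨g1 | g1, -⟩, g2⟩ := hW6 τ hτ μ hμ
      · exact g2.length_le.trans g1.1.le
      · exact g2.length_le.trans g1.2
    · rcases hW5 τ hτ μ hμ with ⟨⟨g1, α, g2, g3⟩ | g1, -⟩ | ⟨C, hC, hC'⟩
      · left
        change μ ∈ M'
        rw [hM', hWW]
        refine ⟨⟨τ, hτ, hμ⟩, g1, α, g3, ?_⟩
        rw [hdrop τ hτ μ (hW2 τ hτ μ hμ) g1, hdec]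
        exact ⟨hτ, g2⟩
      · exact .inr (.inl g1.1)
      · refine .inr (.inr ⟨C.toList, C.nodup_toList, by simpa using hC, fun a ha => ?_⟩)
        change a :: μ ∈ WW.toList
        rw [Finset.mem_toList, hWW]
        exact ⟨τ, hτ, hC' a (by simpa using ha)⟩
  · intro ρ hρ
    change ρ ∈ M' at hρ
    rw [hM'] at hρ
    exact ⟨⟨Finset.mem_toList.2 hρ.1, hρ.2.1⟩, hρ.2.2⟩
  · rintro ⟨α, τ⟩ hx ⟨β, τ'⟩ hy hxy
    change (α, τ) ∈ dec at hx
    change (β, τ') ∈ dec at hy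
    simp only at hxy ⊢
    subst hxy
    rw [hdec] at hx hy
    by_contra hne
    have := hdis τ (by simpa using hx.1) τ' (by simpa using hy.1) hne
    exact Finset.disjoint_left.1 this hx.2 hy.2

end Pool.Agent.Lib.MP_85df58_lc
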