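import Pool.Agent.Lib.MP_85df58_lc.StageB

/-!
# The main case: the splitting tree
-/

namespace Pool.Agent.Lib.MP_85df58_lc

open Primrec

variable {ℓ : ℕ → ℕ} {q : Cond ℓ} {F : Node → ℕ → Part Bool} {m : ℕ → ℕ}

theorem lookup_of_mem {dec : List (List Bool × Node)}
    (h : ∀ x ∈ dec, ∀ y ∈ dec, x.1 = y.1 → x.2 = y.2) {α : List Bool} {τ : Node}
    (hm : (α, τ) ∈ dec) : dec.lookup α = some τ := by
  induction dec with
  | nil => simp at hm
  | cons x dec ih =>
    obtain ⟨β, τ'⟩ := x
    by_cases hβ : α = β
    · subst hβ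
      rw [List.lookup_cons_self]
      congr 1
      exact (h (α, τ) hm (α, τ') List.mem_cons_self rfl).symm
    · have hb : (α == β) = false := by simpa using hβ
      rw [List.lookup_cons, hb]
      refine ih (fun x hx y hy => h x (List.mem_cons_of_mem _ hx) y (List.mem_cons_of_mem _ hy)) ?_
      rcases List.mem_cons.1 hm with h1 | h1
      · exact absurd (congrArg Prod.fst h1) hβ
      · exact h1

/-- A sequence of stages. -/
structure Stages (q : Cond ℓ) (F : Node → ℕ → Part Bool) (m : ℕ → ℕ) (J : ℕ → ℕ)
    (M : ℕ → List Node) (D : ℕ → Data) : Prop where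
  J0 : J 0 = q.σ.length
  M0 : M 0 = [q.σ]
  Js : ∀ r, J (r + 1) = dJ (D r)
  Ms : ∀ r, M (r + 1) = dM (D r)
  inv : ∀ r, Inv q (J r, M r)
  stage : ∀ r, IsStage q F m (J r, M r) (D r)
  comp : Computable D

theorem Main.exists_stages (h : Main q F m) : ∃ J M D, Stages q F m J M D := by
  classical
  obtain ⟨f, hf, hf1, hf2⟩ := (ce_isStage h).select
  let nd : St → Data := fun s => if hs : (f s).Dom then (f s).get hs else default
  let state : ℕ → St := fun r => r.rec (q.σ.length, [q.σ]) fun _ s => (dJ (nd s), dM (nd s))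
  have hnd : ∀ s, Inv q s → nd s ∈ f s := by
    intro s hs
    have hd : (f s).Dom := hf2 s (h.exists_stage hs)
    simp only [nd, hd, dif_pos]
    exact Part.get_mem hd
  have hinv : ∀ r, Inv q (state r) := by
    intro r
    induction r with
    | zero =>
      refine ⟨?_, by simp [state], le_rfl⟩
      intro τ hτ
      have : τ = q.σ := by simpa [state] using hτ
      subst this
      exact ⟨q.mem, List.suffix_refl _, rfl⟩
    | succ r ih =>
      have h1 : IsStage q F m (state r) (nd (state r)) := hf1 _ _ (hnd _ ih)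
      refine ⟨?_, h1.nodup, ?_⟩
      · intro τ hτ
        change τ ∈ dM (nd (state r)) at hτ
        obtain ⟨⟨g1, g2⟩, -⟩ := h1.next τ hτ
        refine ⟨(h1.node τ g1).1.1, ?_, g2⟩
        -- every node of the stage extends the stem
        have key : ∀ k, ∀ μ ∈ dW (nd (state r)), μ.length = k → q.σ <:+ μ := by
          intro k
          induction k with
          | zero =>
            intro μ hμ hk
            rcases (h1.node μ hμ).1.2 with g3 | ⟨g3, -⟩
            · exact (ih.mem μ g3).2.1
            · exact absurd (List.length_eq_zero_iff.1 hk) g3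
          | succ k ihk =>
            intro μ hμ hk
            rcases (h1.node μ hμ).1.2 with g3 | ⟨-, g3⟩
            · exact (ih.mem μ g3).2.1
            · exact (ihk _ g3 (by rw [List.length_tail]; omega)).trans (List.tail_suffix _)
        exact key _ τ g1 rfl
      · exact ih.le.trans h1.lt.le
  have hstage : ∀ r, IsStage q F m (state r) (nd (state r)) := fun r => hf1 _ _ (hnd _ (hinv r))
  have hstate : Computable state := by
    have h1 : Partrec fun r : ℕ => (r.rec (Part.some (q.σ.length, [q.σ])) fun _ IH =>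
        IH.bind fun s => (f s).map fun D => ((dJ D, dM D) : St) : Part St) := by
      refine Partrec.nat_rec (f := fun r : ℕ => r) (g := fun _ => Part.some (q.σ.length, [q.σ]))
        (h := fun _ (y : ℕ × St) => (f y.2).map fun D => ((dJ D, dM D) : St))
        Computable.id (Computable.const _).partrec ?_
      refine Partrec.map (hf.comp (Computable.snd.comp Computable.snd)) ?_
      exact ((Primrec.pair primrec_dJ primrec_dM).comp snd).to_comp
    refine h1.of_eq_tot fun r => ?_
    induction r with
    | zero => exact Part.mem_some _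
    | succ r ih => exact Part.mem_bind ih (Part.mem_map _ (hnd _ (hinv r)))
  refine ⟨fun r => (state r).1, fun r => (state r).2, fun r => nd (state r),
    ⟨rfl, rfl, fun _ => rfl, fun _ => rfl, hinv, hstage, ?_⟩⟩
  exact (hf.comp hstate).of_eq_tot fun r => hnd _ (hinv r)

section

variable {J : ℕ → ℕ} {M : ℕ → List Node} {D : ℕ → Data}

theorem Stages.lt (hS : Stages q F m J M D) (r : ℕ) : J r < J (r + 1) := by
  rw [hS.Js]
  exact (hS.stage r).lt

theorem Stages.mono (hS : Stages q F m J M D) : StrictMono J := strictMono_nat_of_lt_succ hS.lt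

theorem Stages.le_length (hS : Stages q F m J M D) {r : ℕ} {μ : Node} (hμ : μ ∈ dW (D r)) :
    J r ≤ μ.length := by
  have key : ∀ k, ∀ μ ∈ dW (D r), μ.length = k → J r ≤ μ.length := by
    intro k
    induction k with
    | zero =>
      intro μ hμ hk
      rcases ((hS.stage r).node μ hμ).1.2 with g3 | ⟨g3, -⟩
      · exact ((hS.inv r).mem μ g3).2.2.ge
      · exact absurd (List.length_eq_zero_iff.1 hk) g3
    | succ k ihk =>
      intro μ hμ hk
      rcases ((hS.stage r).node μ hμ).1.2 with g3 | ⟨-, g3⟩
      · exact ((hS.inv r).mem μ g3).2.2.ge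
      · have := ihk _ g3 (by rw [List.length_tail]; omega)
        rw [List.length_tail] at this
        omega
  exact key _ μ hμ rfl

theorem Stages.length_le (hS : Stages q F m J M D) {r : ℕ} {μ : Node} (hμ : μ ∈ dW (D r)) :
    μ.length ≤ J (r + 1) := by
  rw [hS.Js]
  exact ((hS.stage r).node μ hμ).2.1

/-- Nodes of the tree of level `J (r + 1)` belong to the list `M (r + 1)` or are forbidden. -/
theorem Stages.level (h : Main q F m) (hS : Stages q F m J M D) {r r' : ℕ} {μ : Node}
    (hμ : μ ∈ dW (D r')) (hl : μ.length = J (r + 1)) (hB : μ ∉ q.B) : μ ∈ M (r + 1) := by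
  have h1 := hS.le_length hμ
  have h2 := hS.length_le hμ
  rw [hl] at h1 h2
  have h3 : r' ≤ r + 1 := hS.mono.le_iff_le.1 h1
  have h4 : r + 1 ≤ r' + 1 := hS.mono.le_iff_le.1 h2
  rcases (show r' = r ∨ r' = r + 1 by omega) with rfl | rfl
  · rcases ((hS.stage r').node μ hμ).2.2 with g | g | ⟨C, hC1, hC2, hC3⟩
    · rw [hS.Ms]; exact g
    · exact absurd g hB
    · exfalso
      have g1 := h.one_le_thr (hS.inv r') (j := μ.length) (hS.le_length hμ)
      have g2 : 0 < C.length := lt_of_lt_of_le (g1.2.trans g1.1) hC2
      obtain ⟨a, ha⟩ := List.exists_mem_of_length_pos g2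
      have g3 := hS.length_le (hC3 a ha)
      simp only [List.length_cons, hl] at g3
      omega
  · rcases ((hS.stage (r + 1)).node μ hμ).1.2 with g | ⟨g1, g2⟩
    · exact g
    · exfalso
      have g3 := hS.le_length g2
      have g4 : 0 < μ.length := List.length_pos_iff.2 g1
      rw [List.length_tail] at g3
      omega

theorem case_three (hℓ : ∀ i, 1 ≤ ℓ i) (hℓc : Primrec ℓ) (h : Main q F m) :
    ∃ p' : Cond ℓ, Ext p' q ∧ ∀ x, IsBranch x → Meets p' x → Decided F x := by
  classical
  obtain ⟨J, M, D, hS⟩ := h.exists_stages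
  let T' : Set Node := {ν | ∃ r, ν ∈ dW (D r)}
  have hT' : ∀ ν ∈ T', ν ∈ q.T := fun ν ⟨r, hr⟩ => ((hS.stage r).node ν hr).1.1
  have hlvlc : Primrec (lvlCard ℓ) := by
    have h1 : Primrec (nlen ℓ) := by
      refine (Primrec.nat_rec₁ (f := fun y IH => IH + ℓ y) 0
        (Primrec.nat_add.comp snd (hℓc.comp fst))).of_eq fun n => ?_
      induction n with
      | zero => simp [nlen]
      | succ n ih => rw [nlen_succ, ← ih]
    have h2 : Primrec fun n : ℕ => 2 ^ n := by
      refine (Primrec.nat_rec₁ (f := fun _ IH => IH * 2) 1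
        (Primrec.nat_mul.comp snd (Primrec.const 2))).of_eq fun n => ?_
      induction n with
      | zero => rfl
      | succ n ih => rw [pow_succ, ← ih]
    exact h2.comp h1
  have hg : Computable fun j => m j / (4 * lvlCard ℓ j) :=
    Primrec.nat_div.to_comp.comp h.comp
      (Primrec.nat_mul.to_comp.comp (Computable.const 4) hlvlc.to_comp)
  have hceT : CE fun ν => ν ∈ T' := by
    have h1 : CE fun z : (Node × ℕ) × Data => z.2 = D z.1.2 :=
      (CE.graph_computable hS.comp).comp (Primrec.pair (snd.comp fst) snd)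
    have h2 : CE fun z : (Node × ℕ) × Data => z.1.1 ∈ dW z.2 :=
      CE.of_primrec (primrec_mem.comp (fst.comp fst) (primrec_dW.comp snd))
    exact (h1.and h2).exists.exists.of_eq fun ν => by simp [T']
  have hdown : ∀ a ν, a :: ν ∈ T' → q.σ <:+ ν → ν ∈ T' := by
    rintro a ν ⟨r, hr⟩ hs
    induction r with
    | zero =>
      rcases ((hS.stage 0).node _ hr).1.2 with g | ⟨-, g⟩
      · exfalso
        simp only [hS.M0, List.mem_singleton] at g
        have := hs.length_le
        rw [← g] at this
        simp at this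
      · exact ⟨0, g⟩
    | succ r ih =>
      rcases ((hS.stage (r + 1)).node _ hr).1.2 with g | ⟨-, g⟩
      · simp only [hS.Ms] at g
        exact ih ((hS.stage r).next _ g).1.1
      · exact ⟨r + 1, g⟩
  -- bushiness from a list of children
  have hkids : ∀ r, ∀ ν ∈ dW (D r), Kids (thr m (M r).length) (dW (D r)) ν →
      ∃ C : Finset (List Bool), m ν.length / (4 * lvlCard ℓ ν.length) ≤ C.card ∧
        ∀ a ∈ C, a :: ν ∈ T' := by
    rintro r ν hν ⟨C, hC1, hC2, hC3⟩
    refine ⟨C.toFinset, ?_, fun a ha => ⟨r, hC3 a (by simpa using ha)⟩⟩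
    rw [List.toFinset_card_of_nodup hC1]
    exact (h.one_le_thr (hS.inv r) (hS.le_length hν)).1.trans hC2
  refine ⟨{ σ := q.σ, T := T', B := q.B, g := fun j => m j / (4 * lvlCard ℓ j), b := q.b,
            ceT := hceT, ceB := q.ceB, cg := hg, cb := q.cb, mem := ?_,
            valid := fun ν hν => q.valid ν (hT' ν hν), down := hdown, up := q.up,
            bushy := ?_, small := ?_, lvl := ?_, gap := gap_div hℓ h.gap }, ?_, ?_⟩
  · refine ⟨0, (hS.stage 0).sub _ ?_⟩
    simp [hS.M0]
  · rintro ν ⟨r, hr⟩ -
    rcases ((hS.stage r).node _ hr).2.2 with g | g | g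
    · -- a node of the next level
      have g0 := ((hS.stage r).next _ g).1.2
      have g1 : ν ∈ M (r + 1) := by rw [hS.Ms]; exact g
      have g2 : ν ∈ dW (D (r + 1)) := (hS.stage (r + 1)).sub _ g1
      rcases ((hS.stage (r + 1)).node _ g2).2.2 with g | g | g
      · exfalso
        have g3 := ((hS.stage (r + 1)).next _ g).1.2
        rw [← hS.Js] at g0 g3
        have := hS.lt (r + 1)
        omega
      · exact .inl g
      · exact .inr (hkids _ _ g2 g)
    · exact .inl g
    · exact .inr (hkids _ _ hr g)
  · intro hbig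
    exact q.small (hbig.mono (fun _ _ => le_rfl) fun ρ hρ _ => ⟨hρ.1, hT' ρ hρ.2⟩)
  · intro j hj
    refine ⟨(q.lvl j hj).1, ?_⟩
    rw [Nat.le_div_iff_mul_le (by have := lvlCard_pos ℓ j; omega)]
    refine le_trans (le_of_eq ?_) (h.lvl j hj).1
    ring
  · exact ⟨List.suffix_refl _, fun ν hν _ => hT' ν hν, fun _ _ _ hB => hB⟩
  · intro x hx hm
    have hxσ : x q.σ.length = q.σ := hm.stem
    have hxm : ∀ k, q.σ.length ≤ k → x k ∈ T' ∧ x k ∉ q.B := hm.mem
    have hJ0 : ∀ r, q.σ.length ≤ J r := fun r => (hS.inv r).le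
    -- the branch passes through the lists
    have hpass : ∀ r, x (J (r + 1)) ∈ M (r + 1) := by
      intro r
      obtain ⟨⟨r', hr'⟩, hB⟩ := hxm _ (hJ0 (r + 1))
      exact hS.level h hr' (hx.length _) hB
    let G : ℕ → List Bool → Bool := fun i α =>
      (bits (((ddec (D (i + 1))).lookup α).getD [])).getD i false
    refine .inr (.inr ⟨G, ?_, fun i => dn (D (i + 1)), ?_, ?_⟩)
    · have h1 : Computable fun z : ℕ × List Bool => ddec (D (z.1 + 1)) :=
        primrec_ddec.to_comp.comp (hS.comp.comp (Computable.succ.comp Computable.fst))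
      have h2 : Primrec₂ fun (α : List Bool) (d : List (List Bool × Node)) => d.lookup α := by
        convert Primrec.listLookup (α := List Bool) (β := Node)
      have h3 : Computable fun z : ℕ × List Bool => (ddec (D (z.1 + 1))).lookup z.2 :=
        h2.to_comp.comp Computable.snd h1
      have h4 : Computable fun z : ℕ × List Bool =>
          bits (((ddec (D (z.1 + 1))).lookup z.2).getD []) :=
        primrec_bits.to_comp.comp (Computable.option_getD h3 (Computable.const []))
      exact (Primrec.list_getD false).to_comp.comp h4 Computable.fst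
    · exact primrec_dn.to_comp.comp (hS.comp.comp Computable.succ)
    · intro f hf i
      obtain ⟨-, α, hα, hdec⟩ := (hS.stage (i + 1)).next (x (J (i + 1 + 1)))
        (by rw [← hS.Ms]; exact hpass _)
      -- the values of `F` are the values of `f`
      have hαf : α = pre f (dn (D (i + 1))) := by
        refine List.ext_getElem (by rw [hα.1, pre_length]) fun l h1 h2 => ?_
        have h3 := hα.2 l (by rw [hα.1] at h1; exact h1)
        obtain ⟨k, hk⟩ := hf l
        have h4 := h.mono _ _ _ _ (hx.suffix (le_max_left (J (i + 1 + 1)) k)) h3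
        have h5 := h.mono _ _ _ _ (hx.suffix (le_max_right (J (i + 1 + 1)) k)) hk
        have h6 := Part.mem_unique h4 h5
        rw [List.getD_eq_getElem _ _ h1] at h6
        rw [h6]
        simp [pre]
      have hdrop : (x (J (i + 1 + 1))).drop (dJ (D (i + 1)) - J (i + 1)) = x (J (i + 1)) := by
        refine suffix_eq_of_length (List.drop_suffix _ _) (hx.suffix (hS.lt _).le) ?_
        rw [List.length_drop, hx.length, hx.length, ← hS.Js]
        have := hS.lt (i + 1)
        omega
      rw [hdrop] at hdec
      have hlook := lookup_of_mem (hS.stage (i + 1)).func hdec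
      change real x i = (bits (((ddec (D (i + 1))).lookup (pre f (dn (D (i + 1))))).getD [])).getD
        i false
      rw [← hαf, hlook, Option.getD_some]
      -- compare the bits
      have hi : i + 1 ≤ J (i + 1) := hS.mono.id_le _
      have hval : Valid ℓ (x (J (i + 1))) := by
        have h1 := (hxm (J (i + 1)) (hJ0 _)).1
        exact q.valid _ (hT' _ h1)
      have hval' : Valid ℓ (x (i + 1)) := hval.suffix (hx.suffix hi)
      have hlen : i < (bits (x (i + 1))).length := by
        rw [bits_length hval', hx.length]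
        exact le_nlen hℓ (i + 1)
      obtain ⟨t, ht⟩ := bits_isPrefix (hx.suffix hi)
      rw [real, ← ht, List.getD_append _ _ _ _ hlen]

end

end Pool.Agent.Lib.MP_85df58_lc
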