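import Pool.Agent.Lib.MP_85df58_lc.Complexity

/-!
# Existence of a universal self-delimiting machine
-/

namespace Pool.Agent.Lib.MP_85df58_lc

open Encodable Primrec Nat.Partrec

/-- The program `1 ^ e 0 p`. -/
def tagged (e : ℕ) (p : List Bool) : List Bool := (List.range e).map (fun _ => true) ++ false :: p

theorem primrec_tagged : Primrec₂ tagged :=
  list_append.comp (list_map (list_range.comp fst) (Primrec.const true).to₂)
    (list_cons.comp (Primrec.const false) snd)

theorem tagged_length (e : ℕ) (p : List Bool) : (tagged e p).length = e + 1 + p.length := by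
  simp only [tagged, List.length_append, List.length_map, List.length_range, List.length_cons]
  omega

theorem tagged_isPrefix {e e' : ℕ} {p p' : List Bool} (h : tagged e p <+: tagged e' p') :
    e = e' ∧ p <+: p' := by
  have h0 : ∀ e : ℕ, (List.range e).map (fun _ => true) = List.replicate e true := by
    intro e
    rw [List.map_const', List.length_range]
  obtain ⟨r, hr⟩ := h
  simp only [tagged, h0] at hr
  induction e generalizing e' with
  | zero =>
    cases e' with
    | zero => exact ⟨rfl, r, by simpa using hr⟩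
    | succ e' => simp [List.replicate_succ] at hr
  | succ e ih =>
    cases e' with
    | zero => simp [List.replicate_succ] at hr
    | succ e' =>
      simp only [List.replicate_succ, List.cons_append, List.cons.injEq, true_and] at hr
      obtain ⟨h1, h2⟩ := ih hr
      exact ⟨by rw [h1], h2⟩

/-- At stage `t` the code `e` halts on a string which is comparable with `p` but not equal. -/
def Viol (e : ℕ) (p : List Bool) (t : ℕ) : Prop :=
  ∃ q ∈ (decode (α := List Bool) t.unpair.1).toList, (encode q = t.unpair.1 ∧ q ≠ p ∧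
    (p = q.take p.length ∨ q = p.take q.length)) ∧
    (Code.evaln t.unpair.2 (Denumerable.ofNat Code e) t.unpair.1).isSome = true

/-- The code `e` halts on `p` at stage `t` with value `y`, and this is accepted. -/
def Acc (z : (ℕ × List Bool) × List Bool) (t : ℕ) : Prop :=
  (t.unpair.1 = encode z.1.2 ∧
    Code.evaln t.unpair.2 (Denumerable.ofNat Code z.1.1) (encode z.1.2) = some (encode z.2)) ∧
    ∀ t' ∈ List.range t, ¬ Viol z.1.1 z.1.2 t'

theorem primrec_viol : PrimrecRel fun (t : ℕ) (x : ℕ × List Bool) => Viol x.1 x.2 t := by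
  classical
  have h1 : PrimrecRel fun (q : List Bool) (w : ℕ × (ℕ × List Bool)) =>
      (encode q = w.1.unpair.1 ∧ q ≠ w.2.2 ∧
        (w.2.2 = q.take w.2.2.length ∨ q = w.2.2.take q.length)) ∧
      (Code.evaln w.1.unpair.2 (Denumerable.ofNat Code w.2.1) w.1.unpair.1).isSome = true := by
    refine PrimrecPred.and (PrimrecPred.and ?_
      (PrimrecPred.and (PrimrecPred.not ?_) (PrimrecPred.or ?_ ?_))) ?_
    · exact Primrec.eq.comp (Primrec.encode.comp fst)
        (fst.comp (Primrec.unpair.comp (fst.comp snd)))
    · exact Primrec.eq.comp fst (snd.comp (snd.comp snd))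
    · exact Primrec.eq.comp (snd.comp (snd.comp snd))
        (list_take.comp (list_length.comp (snd.comp (snd.comp snd))) fst)
    · exact Primrec.eq.comp fst
        (list_take.comp (list_length.comp fst) (snd.comp (snd.comp snd)))
    · refine Primrec.eq.comp (option_isSome.comp ?_) (Primrec.const true)
      exact Code.primrec_evaln.comp (Primrec.pair (Primrec.pair
        (snd.comp (Primrec.unpair.comp (fst.comp snd)))
        ((Primrec.ofNat Code).comp (fst.comp (snd.comp snd))))
        (fst.comp (Primrec.unpair.comp (fst.comp snd))))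
  have h2 := PrimrecRel.exists_mem_list h1
  exact h2.comp (optionToList.comp (Primrec.decode.comp (fst.comp (Primrec.unpair.comp fst))))
    Primrec.id

theorem primrec_acc : PrimrecRel Acc := by
  classical
  refine PrimrecPred.and (PrimrecPred.and ?_ ?_) ?_
  · exact Primrec.eq.comp (fst.comp (Primrec.unpair.comp snd))
      (Primrec.encode.comp (snd.comp (fst.comp fst)))
  · refine Primrec.eq.comp ?_ (option_some.comp (Primrec.encode.comp (snd.comp fst)))
    exact Code.primrec_evaln.comp (Primrec.pair (Primrec.pair
      (snd.comp (Primrec.unpair.comp snd))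
      ((Primrec.ofNat Code).comp (fst.comp (fst.comp fst))))
      (Primrec.encode.comp (snd.comp (fst.comp fst))))
  · have h1 : PrimrecRel fun (t : ℕ) (x : ℕ × List Bool) => ¬ Viol x.1 x.2 t :=
      PrimrecPred.not primrec_viol
    have h2 := PrimrecRel.forall_mem_list h1
    exact h2.comp (list_range.comp snd) (fst.comp fst)

theorem exists_universal : ∃ U : List Bool →. List Bool, IsUniversal U := by
  classical
  have hacc : CE fun z : (ℕ × List Bool) × List Bool => ∃ t, Acc z t :=
    ⟨Acc, primrec_acc, fun _ => Iff.rfl⟩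
  let W : List Bool × List Bool → Prop := fun w =>
    ∃ e p, w.1 = tagged e p ∧ ∃ t, Acc ((e, p), w.2) t
  have hW : CE W := by
    have h1 : CE fun v : ((List Bool × List Bool) × ℕ) × List Bool =>
        v.1.1.1 = tagged v.1.2 v.2 ∧ ∃ t, Acc ((v.1.2, v.2), v.1.1.2) t := by
      refine CE.and (CE.of_primrec ?_) ?_
      · exact Primrec.eq.comp (fst.comp (fst.comp fst))
          (primrec_tagged.comp (snd.comp fst) snd)
      · exact hacc.comp (f := fun v : ((List Bool × List Bool) × ℕ) × List Bool =>
          ((v.1.2, v.2), v.1.1.2))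
          (Primrec.pair (Primrec.pair (snd.comp fst) snd) (snd.comp (fst.comp fst)))
    exact h1.exists.exists
  obtain ⟨U, hU, hU1, hU2⟩ := hW.select
  -- the values are unique
  have huniq : ∀ e p y y' t t', Acc ((e, p), y) t → Acc ((e, p), y') t' → y = y' := by
    intro e p y y' t t' h h'
    have h1 := Code.evaln_sound h.1.2
    have h2 := Code.evaln_sound h'.1.2
    exact encode_injective (Part.mem_unique h1 h2)
  have hmem : ∀ e p y t, Acc ((e, p), y) t → y ∈ U (tagged e p) := by
    intro e p y t h
    have hd := hU2 (tagged e p) ⟨y, e, p, rfl, t, h⟩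
    obtain ⟨e', p', h1, t', h2⟩ := hU1 _ _ (Part.get_mem hd)
    obtain ⟨h3, h4⟩ := tagged_isPrefix (e := e) (e' := e') (p := p) (p' := p')
      (by rw [← h1])
    obtain ⟨-, h5⟩ := tagged_isPrefix (e := e') (e' := e) (p := p') (p' := p)
      (by rw [← h1])
    have h6 : p = p' := h4.eq_of_length (le_antisymm h4.length_le h5.length_le)
    subst h3 h6
    have h7 : y = (U (tagged e p)).get hd := huniq _ _ _ _ _ _ h h2
    have h8 := Part.get_mem hd
    rwa [← h7] at h8
  refine ⟨U, ⟨hU, fun z z' hz hz' hzz => ?_⟩, fun V hV => ?_⟩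
  · obtain ⟨e, p, h1, t, h2⟩ := hU1 _ _ (Part.get_mem hz)
    obtain ⟨e', p', h1', t', h2'⟩ := hU1 _ _ (Part.get_mem hz')
    simp only at h1 h1'
    rw [h1, h1'] at hzz
    obtain ⟨h3, h4⟩ := tagged_isPrefix hzz
    subst h3
    rw [h1, h1']
    congr 1
    by_contra hne
    have hlt : t ≠ t' := by
      intro h
      subst h
      exact hne (encode_injective (h2.1.1.symm.trans h2'.1.1))
    rcases lt_or_gt_of_ne hlt with hlt | hlt
    · refine h2'.2 t (List.mem_range.2 hlt) ⟨p, ?_, ⟨h2.1.1.symm, hne, .inr ?_⟩, ?_⟩
      · rw [h2.1.1]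
        simp
      · exact List.prefix_iff_eq_take.1 h4
      · rw [h2.1.1, h2.1.2]
        rfl
    · refine h2.2 t' (List.mem_range.2 hlt) ⟨p', ?_, ⟨h2'.1.1.symm, fun h => hne h.symm, .inl ?_⟩, ?_⟩
      · rw [h2'.1.1]
        simp
      · exact List.prefix_iff_eq_take.1 h4
      · rw [h2'.1.1, h2'.1.2]
        rfl
  · obtain ⟨c, hc⟩ := Code.exists_code.1 hV.partrec
    have hval : ∀ p y, encode y ∈ c.eval (encode p) ↔ y ∈ V p := by
      intro p y
      rw [hc]
      simp [encode_inj]
    refine ⟨encode c + 1, fun p y hy => ⟨tagged (encode c) p, ?_, ?_⟩⟩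
    · obtain ⟨s, hs⟩ := Code.evaln_complete.1 ((hval p y).2 hy)
      refine hmem _ _ _ (Nat.pair (encode p) s) ⟨⟨by simp, ?_⟩, ?_⟩
      · simpa using hs
      · rintro t - ⟨q, hq, ⟨h1, hne, hpq⟩, ht⟩
        rw [Denumerable.ofNat_encode] at ht
        obtain ⟨v, hv⟩ := Option.isSome_iff_exists.1 ht
        have h2 : v ∈ c.eval (encode q) := by
          rw [h1]
          exact Code.evaln_sound hv
        have h3 : (V q).Dom := by
          rw [hc] at h2
          simp only [encodek, Part.coe_some, Part.bind_some, Part.mem_map_iff] at h2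
          obtain ⟨w, hw, -⟩ := h2
          exact Part.dom_iff_mem.2 ⟨w, hw⟩
        have h4 : (V p).Dom := Part.dom_iff_mem.2 ⟨y, hy⟩
        rcases hpq with h | h
        · exact hne (hV.free p q h4 h3 (List.prefix_iff_eq_take.2 h)).symm
        · exact hne (hV.free q p h3 h4 (List.prefix_iff_eq_take.2 h))
    · rw [tagged_length]
      omega

end Pool.Agent.Lib.MP_85df58_lc
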